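import Mathlib

/-! Integer data and checkers for the 12-vertex triangulation (MP_bf58c1_co). -/

namespace Helper479.Sink

/-- integer vectors in 3-space -/
structure Z3 where
  x : Int
  y : Int
  z : Int
deriving DecidableEq

namespace Z3
def add (a b : Z3) : Z3 := ⟨a.x+b.x, a.y+b.y, a.z+b.z⟩
def smul (k : Int) (a : Z3) : Z3 := ⟨k*a.x, k*a.y, k*a.z⟩
def dot (a b : Z3) : Int := a.x*b.x+a.y*b.y+a.z*b.z
def cross (a b : Z3) : Z3 := ⟨a.y*b.z - a.z*b.y, a.z*b.x - a.x*b.z, a.x*b.y - a.y*b.x⟩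
end Z3

/-- The twelve (unnormalised) vertices: all even sign changes and cyclic shifts of (12,29,5). -/
def Pl : List Z3 := [⟨12,29,5⟩, ⟨5,12,29⟩, ⟨12,-29,-5⟩, ⟨29,5,12⟩, ⟨5,-12,-29⟩, ⟨-5,12,-29⟩, ⟨29,-5,-12⟩, ⟨-29,5,-12⟩, ⟨-29,-5,12⟩, ⟨-5,-12,29⟩, ⟨-12,29,-5⟩, ⟨-12,-29,5⟩]

def P (i : ℕ) : Z3 := Pl.getD i ⟨0,0,0⟩

/-- The twenty faces. -/
def Fl : List (ℕ × ℕ × ℕ) := [(0,1,3), (0,7,9), (1,11,6), (2,4,6), (2,8,5), (3,4,10), (5,7,10), (8,11,9), (7,3,10), (3,7,0), (11,0,9), (0,11,1), (8,6,11), (6,8,2), (4,1,6), (1,4,3), (10,2,5), (2,10,4), (9,5,8), (5,9,7)]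

def F (f : ℕ) : ℕ × ℕ × ℕ := Fl.getD f (0,0,0)

/-- The thirty edges. -/
def El : List (ℕ × ℕ) := [(0,1), (0,3), (0,7), (0,9), (0,11), (1,3), (1,4), (1,6), (1,11), (2,4), (2,5), (2,6), (2,8), (2,10), (3,4), (3,7), (3,10), (4,6), (4,10), (5,7), (5,8), (5,9), (5,10), (6,8), (6,11), (7,9), (7,10), (8,9), (8,11), (9,11)]

/-- coefficient vector of vertex `i` in the determinant of face `g` -/
def cv (g i : ℕ) : Z3 :=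
  if i = (F g).1 then Z3.cross (P (F g).2.1) (P (F g).2.2)
  else if i = (F g).2.1 then Z3.cross (P (F g).2.2) (P (F g).1)
  else if i = (F g).2.2 then Z3.cross (P (F g).1) (P (F g).2.1)
  else ⟨0,0,0⟩

def W (lam : List (ℕ × ℕ)) (i : ℕ) : Z3 :=
  lam.foldr (fun p acc => Z3.add (Z3.smul p.2 (cv p.1 i)) acc) ⟨0,0,0⟩

inductive T1 where
  | L (lam : List (ℕ × ℕ)) : T1
  | N (e : ℕ) (l r : T1) : T1

inductive T2 where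
  | L (f : ℕ) : T2
  | N (e a b g : ℕ) (m : Z3) (l r : T2) : T2

def leafOK (f : ℕ) (lam : List (ℕ × ℕ)) (c0 c1 c2 : Z3) : Bool :=
  (!lam.isEmpty) && lam.all (fun p => decide (p.1 ≠ f) && decide (p.1 < 20) && decide (0 < p.2)) &&
  (List.range 12).all (fun i => decide (0 ≤ Z3.dot (W lam i) c0) && decide (0 ≤ Z3.dot (W lam i) c1) &&
    decide (0 ≤ Z3.dot (W lam i) c2))

def check1 (f : ℕ) : T1 → Z3 → Z3 → Z3 → Bool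
  | .L lam, c0, c1, c2 => leafOK f lam c0 c1 c2
  | .N 0 l r, c0, c1, c2 => check1 f l c0 (Z3.add c0 c1) c2 && check1 f r (Z3.add c0 c1) c1 c2
  | .N 1 l r, c0, c1, c2 => check1 f l c0 c1 (Z3.add c1 c2) && check1 f r c0 (Z3.add c1 c2) c2
  | .N _ l r, c0, c1, c2 => check1 f l (Z3.add c2 c0) c1 c2 && check1 f r c0 c1 (Z3.add c2 c0)

def inF (f : ℕ) (c : Z3) : Bool :=
  decide (0 ≤ Z3.dot (cv f (F f).1) c) && decide (0 ≤ Z3.dot (cv f (F f).2.1) c) &&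
    decide (0 ≤ Z3.dot (cv f (F f).2.2) c)

def check2 : T2 → Z3 → Z3 → Z3 → Bool
  | .L f, c0, c1, c2 => decide (f < 20) && inF f c0 && inF f c1 && inF f c2
  | .N 0 a b g m l r, c0, c1, c2 =>
      decide (0 < a) && decide (0 < b) && decide (0 < g) &&
      decide (Z3.smul g m = Z3.add (Z3.smul a c0) (Z3.smul b c1)) && check2 l c0 m c2 && check2 r m c1 c2
  | .N 1 a b g m l r, c0, c1, c2 =>
      decide (0 < a) && decide (0 < b) && decide (0 < g) &&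
      decide (Z3.smul g m = Z3.add (Z3.smul a c1) (Z3.smul b c2)) && check2 l c0 c1 m && check2 r c0 m c2
  | .N _ a b g m l r, c0, c1, c2 =>
      decide (0 < a) && decide (0 < b) && decide (0 < g) &&
      decide (Z3.smul g m = Z3.add (Z3.smul a c2) (Z3.smul b c0)) && check2 l m c1 c2 && check2 r c0 c1 m

def tr0 : T1 :=
  (.N 0
  (.L [(10,2),(11,1),(12,4),(13,51),(14,1),(16,25),(17,1),(18,39),(19,7)])
  (.L [(8,2),(9,1),(12,1),(13,19),(16,27),(17,3),(18,34),(19,2)]))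

def tr1 : T1 :=
  (.N 0
  (.N 1
   (.N 2
    (.N 1
     (.N 0
      (.L [(0,195),(6,73),(7,130),(8,389),(11,260),(18,174)])
      (.N 0
       (.L [(0,440),(6,245),(7,69),(8,1314),(10,249),(11,392),(18,123)])
       (.N 1
        (.L [(6,1),(11,20),(12,115),(13,18),(14,10),(15,1),(16,3),(18,2),(19,1)])
        (.L [(0,1),(6,1),(8,5),(11,5),(12,77),(13,20),(14,2),(17,1),(18,1)]))))
     (.L [(0,5),(6,4),(7,3),(8,10),(11,6),(18,4)]))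
    (.N 1
     (.N 0
      (.N 2
       (.L [(0,19),(3,25),(5,26),(7,33),(8,32),(11,68),(13,28),(14,14),(16,259),(18,36),(19,2)])
       (.N 0
        (.L [(12,1),(13,10),(16,3),(18,1)])
        (.L [(0,3),(3,6),(5,5),(7,7),(8,2),(11,23),(13,1),(14,5),(16,22),(18,6),(19,1)])))
      (.N 1
       (.L [(6,2),(11,14),(12,77),(13,9),(14,6),(15,1),(16,9),(18,5),(19,3)])
       (.N 2
        (.L [(0,27),(3,9),(7,13),(8,83),(11,22),(12,3),(16,259),(17,41),(18,19)])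
        (.N 0
         (.L [(0,9),(3,11),(5,12),(7,9),(8,25),(11,19),(12,9),(13,2),(14,4),(16,77),(18,12),(19,1)])
         (.L [(0,20),(3,4),(6,3),(7,7),(8,83),(11,12),(12,9),(16,115),(17,6),(18,9)])))))
     (.L [(12,1),(13,34),(16,27),(18,8)])))
   (.N 2
    (.N 1
     (.N 0
      (.N 2
       (.L [(0,109),(6,41),(7,62),(8,55),(11,584),(18,82)])
       (.N 2
        (.L [(0,245),(6,69),(7,117),(8,123),(11,1314),(18,104)])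
        (.N 0
         (.L [(0,1),(8,2),(9,1),(12,1),(13,10),(15,3),(16,115),(17,18),(18,20)])
         (.L [(0,1),(7,1),(8,1),(11,5),(13,2),(14,1),(16,77),(17,20),(18,5)]))))
      (.L [(0,174),(6,130),(7,195),(8,174),(11,389),(18,261)]))
     (.N 0
      (.N 2
       (.N 1
        (.L [(2,26),(3,25),(6,33),(7,19),(8,36),(9,2),(11,32),(13,14),(15,259),(17,28),(18,68)])
        (.N 2
         (.L [(8,1),(15,3),(16,1),(17,10)])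
         (.L [(2,5),(3,6),(6,7),(7,3),(8,6),(9,1),(11,2),(13,5),(15,22),(17,1),(18,23)])))
       (.N 0
        (.L [(0,2),(8,5),(9,3),(12,1),(13,6),(15,9),(16,77),(17,9),(18,14)])
        (.N 1
         (.L [(3,9),(6,13),(7,27),(8,19),(11,83),(14,41),(15,259),(16,3),(18,22)])
         (.N 2
          (.L [(2,12),(3,11),(6,9),(7,9),(8,12),(9,1),(11,25),(13,4),(15,77),(16,9),(17,2),(18,19)])
          (.L [(0,3),(3,4),(6,7),(7,20),(8,9),(11,83),(14,6),(15,115),(16,9),(18,12)])))))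
      (.L [(8,8),(15,27),(16,1),(17,34)])))
    (.N 0
     (.L [(12,1),(13,3),(14,1),(16,3),(18,1)])
     (.N 1
      (.L [(0,82),(6,145),(7,109),(8,389),(9,266),(11,219),(18,146)])
      (.N 1
       (.L [(0,1),(7,1),(8,1),(11,3),(13,1),(14,1),(16,23),(18,2)])
       (.L [(8,1),(13,2),(14,1),(16,5),(18,1)]))))))
  (.N 2
   (.N 1
    (.N 0
     (.N 2
      (.N 1
       (.L [(0,130),(6,195),(7,73),(8,260),(11,37),(18,389)])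
       (.N 1
        (.L [(0,69),(6,117),(7,245),(8,104),(11,123),(18,1314)])
        (.N 2
         (.L [(7,1),(8,20),(10,1),(11,2),(12,3),(14,18),(15,115),(16,1),(17,10)])
         (.L [(6,1),(7,1),(8,5),(11,1),(13,1),(14,20),(15,77),(17,2),(18,5)]))))
      (.L [(0,130),(6,195),(7,145),(8,261),(11,146),(18,389)]))
     (.N 2
      (.N 1
       (.N 0
        (.L [(0,33),(3,25),(4,26),(6,19),(8,68),(10,2),(11,36),(12,259),(14,28),(17,14),(18,32)])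
        (.N 1
         (.L [(11,1),(12,3),(14,10),(15,1)])
         (.L [(0,7),(3,6),(4,5),(6,3),(8,23),(10,1),(11,6),(12,22),(14,1),(17,5),(18,2)])))
       (.N 2
        (.L [(7,2),(8,14),(10,3),(11,5),(12,9),(14,9),(15,77),(16,1),(17,6)])
        (.N 0
         (.L [(0,13),(3,9),(6,27),(8,22),(11,19),(12,259),(13,41),(15,3),(18,83)])
         (.N 1
          (.L [(0,9),(3,11),(4,12),(6,9),(8,19),(10,1),(11,12),(12,77),(14,2),(15,9),(17,4),(18,25)])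
          (.L [(0,7),(3,4),(6,20),(7,3),(8,12),(11,9),(12,115),(13,6),(15,9),(18,83)])))))
      (.L [(11,8),(12,27),(14,34),(15,1)])))
    (.N 2
     (.L [(8,1),(13,1),(15,3),(16,1),(17,3)])
     (.N 0
      (.L [(0,184),(6,138),(7,491),(8,185),(11,493),(18,1314)])
      (.N 0
       (.L [(6,1),(7,1),(8,2),(11,1),(13,1),(15,23),(17,1),(18,3)])
       (.L [(8,1),(11,1),(13,1),(15,5),(17,2)])))))
   (.N 1
    (.L [(11,1),(12,3),(14,3),(15,1),(17,1)])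
    (.N 2
     (.L [(0,38),(6,29),(7,11),(8,77),(11,51),(18,29)])
     (.N 2
      (.L [(0,1),(6,1),(8,3),(11,2),(12,23),(14,1),(17,1),(18,1)])
      (.L [(11,1),(12,5),(14,2),(17,1),(18,1)]))))))

def tr2 : T1 :=
  (.N 0
  (.N 1
   (.N 2
    (.N 1
     (.N 0
      (.L [(0,62),(3,41),(7,109),(10,584),(11,400),(13,55),(15,82)])
      (.N 0
       (.L [(0,440),(3,69),(7,245),(10,1314),(13,123),(15,104)])
       (.N 1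
        (.L [(7,1),(8,10),(9,1),(12,1),(13,2),(15,20),(16,18),(17,115),(18,3)])
        (.L [(0,1),(7,1),(8,2),(10,5),(13,1),(15,5),(16,20),(17,77),(19,1)]))))
     (.L [(0,163),(3,109),(7,145),(10,389),(13,146),(15,218)]))
    (.N 1
     (.N 0
      (.N 2
       (.L [(0,19),(1,26),(3,33),(6,25),(8,14),(10,32),(12,2),(13,36),(15,68),(16,28),(18,259)])
       (.N 0
        (.L [(13,1),(16,10),(17,1),(18,3)])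
        (.L [(0,3),(1,5),(3,7),(6,6),(8,5),(10,2),(12,1),(13,6),(15,23),(16,1),(18,22)])))
      (.N 1
       (.L [(7,2),(8,6),(9,1),(12,3),(13,5),(15,14),(16,9),(17,77),(18,9)])
       (.N 2
        (.L [(0,27),(3,13),(6,9),(10,83),(13,19),(15,22),(17,3),(18,259),(19,41)])
        (.N 0
         (.L [(0,9),(1,12),(3,9),(6,11),(8,4),(10,25),(12,1),(13,12),(15,19),(16,2),(17,9),(18,77)])
         (.L [(0,20),(3,7),(6,4),(7,3),(10,83),(13,9),(15,12),(17,9),(18,115),(19,6)])))))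
     (.L [(13,8),(16,34),(17,1),(18,27)])))
   (.N 2
    (.N 1
     (.N 0
      (.N 2
       (.L [(0,73),(3,195),(7,130),(10,174),(11,119),(13,260),(15,389)])
       (.N 2
        (.L [(0,274),(3,130),(7,77),(10,138),(13,116),(15,389)])
        (.N 0
         (.L [(0,1),(9,3),(10,2),(11,1),(13,20),(16,10),(17,1),(18,115),(19,18)])
         (.L [(0,1),(3,1),(8,1),(10,1),(13,5),(15,5),(16,2),(18,77),(19,20)]))))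
      (.L [(0,145),(3,195),(7,130),(10,174),(13,261),(15,389)]))
     (.N 0
      (.N 2
       (.N 1
        (.L [(3,19),(5,26),(6,25),(7,33),(9,259),(10,36),(11,2),(13,68),(15,32),(16,14),(19,28)])
        (.N 2
         (.L [(9,3),(10,1),(18,1),(19,10)])
         (.L [(3,3),(5,5),(6,6),(7,7),(9,22),(10,6),(11,1),(13,23),(15,2),(16,5),(19,1)])))
       (.N 0
        (.L [(0,2),(9,9),(10,5),(11,3),(13,14),(16,6),(17,1),(18,77),(19,9)])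
        (.N 1
         (.L [(3,27),(6,9),(7,13),(8,41),(9,259),(10,19),(13,22),(15,83),(18,3)])
         (.N 2
          (.L [(3,9),(5,12),(6,11),(7,9),(9,77),(10,12),(11,1),(13,19),(15,25),(16,4),(18,9),(19,2)])
          (.L [(0,3),(3,20),(6,4),(7,7),(8,6),(9,115),(10,9),(13,12),(15,83),(18,9)])))))
      (.L [(9,27),(10,8),(18,1),(19,34)])))
    (.N 0
     (.L [(8,1),(13,1),(16,3),(17,1),(18,3)])
     (.N 1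
      (.L [(0,82),(3,109),(7,145),(10,389),(13,146),(15,219)])
      (.N 1
       (.L [(0,1),(3,1),(8,1),(10,1),(13,2),(15,3),(16,1),(18,23)])
       (.L [(8,1),(10,1),(13,1),(16,2),(18,5)]))))))
  (.N 2
   (.N 1
    (.N 0
     (.N 2
      (.N 1
       (.L [(0,130),(3,73),(7,195),(10,260),(13,389),(15,37)])
       (.N 1
        (.L [(0,69),(3,245),(7,117),(10,104),(13,1314),(15,123)])
        (.N 2
         (.L [(3,1),(8,18),(9,115),(10,20),(14,1),(15,2),(17,3),(18,1),(19,10)])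
         (.L [(3,1),(7,1),(8,20),(9,77),(10,5),(13,5),(15,1),(16,1),(19,2)]))))
      (.L [(0,22),(3,29),(7,38),(10,51),(13,77),(15,29)]))
     (.N 2
      (.N 1
       (.N 0
        (.L [(0,33),(4,26),(6,25),(7,19),(8,28),(10,68),(13,32),(14,2),(15,36),(17,259),(19,14)])
        (.N 1
         (.L [(8,10),(9,1),(15,1),(17,3)])
         (.L [(0,7),(4,5),(6,6),(7,3),(8,1),(10,23),(13,2),(14,1),(15,6),(17,22),(19,5)])))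
       (.N 2
        (.L [(3,2),(8,9),(9,77),(10,14),(14,3),(15,5),(17,9),(18,1),(19,6)])
        (.N 0
         (.L [(0,13),(6,9),(7,27),(9,3),(10,22),(13,83),(15,19),(16,41),(17,259)])
         (.N 1
          (.L [(0,9),(4,12),(6,11),(7,9),(8,2),(9,9),(10,19),(13,25),(14,1),(15,12),(17,77),(19,4)])
          (.L [(0,7),(3,3),(6,4),(7,20),(9,9),(10,12),(13,83),(15,9),(16,6),(17,115)])))))
      (.L [(8,34),(9,1),(15,8),(17,27)])))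
    (.N 2
     (.L [(9,3),(10,1),(16,1),(18,1),(19,3)])
     (.N 0
      (.L [(0,184),(3,491),(7,138),(10,185),(13,1314),(15,493)])
      (.N 0
       (.L [(3,1),(7,1),(9,23),(10,2),(13,3),(15,1),(16,1),(19,1)])
       (.L [(9,5),(10,1),(15,1),(16,1),(19,2)])))))
   (.N 1
    (.L [(8,3),(9,1),(15,1),(17,3),(19,1)])
    (.N 2
     (.L [(0,109),(3,145),(7,82),(10,219),(13,389),(15,146)])
     (.N 2
      (.L [(0,1),(7,1),(8,1),(10,3),(13,1),(15,2),(17,23),(19,1)])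
      (.L [(8,2),(13,1),(15,1),(17,5),(19,1)]))))))

def tr3 : T1 :=
  (.N 0
  (.L [(8,4),(9,51),(10,25),(11,1),(15,1),(16,2),(17,1),(18,7),(19,39)])
  (.L [(8,1),(9,19),(10,27),(11,3),(12,2),(13,1),(18,2),(19,34)]))

def tr4 : T1 :=
  (.N 0
  (.N 1
   (.N 2
    (.N 1
     (.N 0
      (.L [(3,292),(6,41),(7,109),(12,584),(17,82),(19,55)])
      (.N 0
       (.L [(3,440),(6,69),(7,245),(12,1314),(17,104),(19,123)])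
       (.N 1
        (.L [(7,1),(8,115),(9,18),(10,3),(14,1),(15,10),(17,20),(18,1),(19,2)])
        (.L [(3,1),(7,1),(8,77),(9,20),(11,1),(12,5),(15,2),(17,5),(19,1)]))))
     (.L [(3,5),(6,3),(7,4),(12,10),(17,6),(19,4)]))
    (.N 1
     (.N 0
      (.N 2
       (.L [(0,25),(2,26),(3,19),(6,33),(9,28),(10,259),(12,32),(15,14),(17,68),(18,2),(19,36)])
       (.N 0
        (.L [(8,1),(9,10),(10,3),(19,1)])
        (.L [(0,6),(2,5),(3,3),(6,7),(9,1),(10,22),(12,2),(15,5),(17,23),(18,1),(19,6)])))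
      (.N 1
       (.L [(7,2),(8,77),(9,9),(10,9),(14,1),(15,6),(17,14),(18,3),(19,5)])
       (.N 2
        (.L [(0,9),(3,27),(6,13),(8,3),(10,259),(11,41),(12,83),(17,22),(19,19)])
        (.N 0
         (.L [(0,11),(2,12),(3,9),(6,9),(8,9),(9,2),(10,77),(12,25),(15,4),(17,19),(18,1),(19,12)])
         (.L [(0,4),(3,20),(6,7),(7,3),(8,9),(10,115),(11,6),(12,83),(17,12),(19,9)])))))
     (.L [(8,1),(9,34),(10,27),(19,8)])))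
   (.N 2
    (.N 1
     (.N 0
      (.N 2
       (.L [(3,109),(6,62),(7,41),(12,55),(16,400),(17,584),(19,82)])
       (.N 2
        (.L [(3,274),(6,130),(7,77),(12,138),(17,389),(19,116)])
        (.N 0
         (.L [(3,1),(8,1),(9,10),(10,115),(11,18),(12,2),(13,1),(14,3),(19,20)])
         (.L [(3,1),(6,1),(9,2),(10,77),(11,20),(12,1),(15,1),(17,5),(19,5)]))))
      (.L [(3,174),(6,195),(7,130),(12,174),(17,389),(19,261)]))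
     (.N 0
      (.N 2
       (.N 1
        (.L [(0,25),(5,26),(6,19),(7,33),(9,14),(11,28),(12,36),(13,2),(14,259),(17,32),(19,68)])
        (.N 2
         (.L [(10,1),(11,10),(12,1),(14,3)])
         (.L [(0,6),(5,5),(6,3),(7,7),(9,5),(11,1),(12,6),(13,1),(14,22),(17,2),(19,23)])))
       (.N 0
        (.L [(3,2),(8,1),(9,6),(10,77),(11,9),(12,5),(13,3),(14,9),(19,14)])
        (.N 1
         (.L [(0,9),(6,27),(7,13),(10,3),(12,19),(14,259),(15,41),(17,83),(19,22)])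
         (.N 2
          (.L [(0,11),(5,12),(6,9),(7,9),(9,4),(10,9),(11,2),(12,12),(13,1),(14,77),(17,25),(19,19)])
          (.L [(0,4),(3,3),(6,20),(7,7),(10,9),(12,9),(14,115),(15,6),(17,83),(19,12)])))))
      (.L [(10,1),(11,34),(12,8),(14,27)])))
    (.N 0
     (.L [(8,1),(9,3),(10,3),(15,1),(19,1)])
     (.N 1
      (.L [(3,388),(6,109),(7,145),(12,389),(17,219),(19,146)])
      (.N 1
       (.L [(3,1),(6,1),(9,1),(10,23),(12,1),(15,1),(17,3),(19,2)])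
       (.L [(9,2),(10,5),(12,1),(15,1),(19,1)]))))))
  (.N 2
   (.N 1
    (.N 0
     (.N 2
      (.N 1
       (.L [(3,130),(6,346),(7,195),(12,260),(17,174),(19,389)])
       (.N 1
        (.L [(3,69),(6,245),(7,117),(12,104),(17,123),(19,1314)])
        (.N 2
         (.L [(6,1),(8,3),(10,1),(11,10),(12,20),(14,115),(15,18),(16,1),(17,2)])
         (.L [(6,1),(7,1),(9,1),(11,2),(12,5),(14,77),(15,20),(17,1),(19,5)]))))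
      (.L [(3,130),(6,145),(7,195),(12,261),(16,25),(17,174),(19,389)]))
     (.N 2
      (.N 1
       (.N 0
        (.L [(0,25),(1,26),(3,33),(7,19),(8,259),(11,14),(12,68),(15,28),(16,2),(17,36),(19,32)])
        (.N 1
         (.L [(8,3),(14,1),(15,10),(17,1)])
         (.L [(0,6),(1,5),(3,7),(7,3),(8,22),(11,5),(12,23),(15,1),(16,1),(17,6),(19,2)])))
       (.N 2
        (.L [(6,2),(8,9),(10,1),(11,6),(12,14),(14,77),(15,9),(16,3),(17,5)])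
        (.N 0
         (.L [(0,9),(3,13),(7,27),(8,259),(9,41),(12,22),(14,3),(17,19),(19,83)])
         (.N 1
          (.L [(0,11),(1,12),(3,9),(7,9),(8,77),(11,4),(12,19),(14,9),(15,2),(16,1),(17,12),(19,25)])
          (.L [(0,4),(3,7),(6,3),(7,20),(8,115),(9,6),(12,12),(14,9),(17,9),(19,83)])))))
      (.L [(8,27),(14,1),(15,34),(17,8)])))
    (.N 2
     (.L [(9,1),(10,1),(11,3),(12,1),(14,3)])
     (.N 0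
      (.L [(3,184),(6,491),(7,138),(12,185),(17,493),(19,1314)])
      (.N 0
       (.L [(6,1),(7,1),(9,1),(11,1),(12,2),(14,23),(17,1),(19,3)])
       (.L [(9,1),(11,2),(12,1),(14,5),(17,1)])))))
   (.N 1
    (.L [(8,3),(11,1),(14,1),(15,3),(17,1)])
    (.N 2
     (.L [(3,656),(6,184),(7,491),(12,1314),(17,185),(19,493)])
     (.N 2
      (.L [(3,1),(7,1),(8,23),(11,1),(12,3),(15,1),(17,2),(19,1)])
      (.L [(8,5),(11,1),(15,2),(17,1),(19,1)]))))))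

def tr5 : T1 :=
  (.N 0
  (.N 1
   (.N 2
    (.N 1
     (.N 0
      (.L [(0,292),(3,109),(6,41),(9,82),(14,584),(16,55)])
      (.N 0
       (.L [(0,440),(3,245),(6,69),(8,249),(9,392),(14,1314),(16,123)])
       (.N 1
        (.L [(3,1),(9,20),(10,10),(11,1),(13,3),(16,2),(17,1),(18,18),(19,115)])
        (.L [(0,1),(3,1),(9,5),(10,2),(12,1),(14,5),(16,1),(18,20),(19,77)]))))
     (.L [(0,5),(3,4),(6,3),(9,6),(14,10),(16,4)]))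
    (.N 1
     (.N 0
      (.N 2
       (.L [(0,19),(2,26),(6,33),(7,25),(9,68),(10,14),(13,259),(14,32),(16,36),(17,2),(18,28)])
       (.N 0
        (.L [(13,3),(16,1),(18,10),(19,1)])
        (.L [(0,3),(2,5),(6,7),(7,6),(9,23),(10,5),(13,22),(14,2),(16,6),(17,1),(18,1)])))
      (.N 1
       (.L [(3,2),(9,14),(10,6),(11,1),(13,9),(16,5),(17,3),(18,9),(19,77)])
       (.N 2
        (.L [(0,27),(6,13),(7,9),(9,22),(12,41),(13,259),(14,83),(16,19),(19,3)])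
        (.N 0
         (.L [(0,9),(2,12),(6,9),(7,11),(9,19),(10,4),(13,77),(14,25),(16,12),(17,1),(18,2),(19,9)])
         (.L [(0,20),(3,3),(6,7),(7,4),(9,12),(12,6),(13,115),(14,83),(16,9),(19,9)])))))
     (.L [(13,27),(16,8),(18,34),(19,1)])))
   (.N 2
    (.N 1
     (.N 0
      (.N 2
       (.L [(0,109),(3,41),(6,62),(9,584),(14,55),(16,82)])
       (.N 2
        (.L [(0,274),(3,77),(6,130),(9,389),(14,138),(16,116)])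
        (.N 0
         (.L [(0,1),(11,3),(12,18),(13,115),(14,2),(15,1),(16,20),(18,10),(19,1)])
         (.L [(0,1),(6,1),(9,5),(10,1),(12,20),(13,77),(14,1),(16,5),(18,2)]))))
      (.L [(0,174),(3,130),(6,195),(9,389),(14,174),(16,261)]))
     (.N 0
      (.N 2
       (.N 1
        (.L [(1,26),(3,33),(6,19),(7,25),(9,32),(11,259),(12,28),(14,36),(15,2),(16,68),(18,14)])
        (.N 2
         (.L [(11,3),(12,10),(13,1),(14,1)])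
         (.L [(1,5),(3,7),(6,3),(7,6),(9,2),(11,22),(12,1),(14,6),(15,1),(16,23),(18,5)])))
       (.N 0
        (.L [(0,2),(11,9),(12,9),(13,77),(14,5),(15,3),(16,14),(18,6),(19,1)])
        (.N 1
         (.L [(3,13),(6,27),(7,9),(9,83),(10,41),(11,259),(13,3),(14,19),(16,22)])
         (.N 2
          (.L [(1,12),(3,9),(6,9),(7,11),(9,25),(11,77),(12,2),(13,9),(14,12),(15,1),(16,19),(18,4)])
          (.L [(0,3),(3,7),(6,20),(7,4),(9,83),(10,6),(11,115),(13,9),(14,9),(16,12)])))))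
      (.L [(11,27),(12,34),(13,1),(14,8)])))
    (.N 0
     (.L [(10,1),(13,3),(16,1),(18,3),(19,1)])
     (.N 1
      (.L [(0,388),(3,145),(6,109),(9,219),(14,389),(16,146)])
      (.N 1
       (.L [(0,1),(6,1),(9,3),(10,1),(13,23),(14,1),(16,2),(18,1)])
       (.L [(10,1),(13,5),(14,1),(16,1),(18,2)]))))))
  (.N 2
   (.N 1
    (.N 0
     (.N 2
      (.N 1
       (.L [(0,41),(3,62),(6,109),(9,55),(14,82),(16,584)])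
       (.N 1
        (.L [(0,69),(3,117),(6,245),(9,123),(14,104),(16,1314)])
        (.N 2
         (.L [(6,1),(8,1),(9,2),(10,18),(11,115),(12,10),(13,1),(14,20),(19,3)])
         (.L [(3,1),(6,1),(9,1),(10,20),(11,77),(12,2),(14,5),(16,5),(18,1)]))))
      (.L [(0,130),(3,195),(6,145),(9,146),(14,261),(16,389)]))
     (.N 2
      (.N 1
       (.N 0
        (.L [(0,33),(3,19),(4,26),(7,25),(8,2),(9,36),(10,28),(12,14),(14,68),(16,32),(19,259)])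
        (.N 1
         (.L [(9,1),(10,10),(11,1),(19,3)])
         (.L [(0,7),(3,3),(4,5),(7,6),(8,1),(9,6),(10,1),(12,5),(14,23),(16,2),(19,22)])))
       (.N 2
        (.L [(6,2),(8,3),(9,5),(10,9),(11,77),(12,6),(13,1),(14,14),(19,9)])
        (.N 0
         (.L [(0,13),(3,27),(7,9),(9,19),(11,3),(14,22),(16,83),(18,41),(19,259)])
         (.N 1
          (.L [(0,9),(3,9),(4,12),(7,11),(8,1),(9,12),(10,2),(11,9),(12,4),(14,19),(16,25),(19,77)])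
          (.L [(0,7),(3,20),(6,3),(7,4),(9,9),(11,9),(14,12),(16,83),(18,6),(19,115)])))))
      (.L [(9,8),(10,34),(11,1),(19,27)])))
    (.N 2
     (.L [(11,3),(12,3),(13,1),(14,1),(18,1)])
     (.N 0
      (.L [(0,259),(3,194),(6,146),(9,146),(14,260),(16,389)])
      (.N 0
       (.L [(3,1),(6,1),(9,1),(11,23),(12,1),(14,2),(16,3),(18,1)])
       (.L [(9,1),(11,5),(12,2),(14,1),(18,1)])))))
   (.N 1
    (.L [(9,1),(10,3),(11,1),(12,1),(19,3)])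
    (.N 2
     (.L [(0,138),(3,491),(6,184),(9,185),(14,1314),(16,493)])
     (.N 2
      (.L [(0,1),(3,1),(9,2),(10,1),(12,1),(14,3),(16,1),(19,23)])
      (.L [(9,1),(10,2),(12,1),(16,1),(19,5)]))))))

def tr6 : T1 :=
  (.N 0
  (.L [(9,1),(10,4),(11,51),(12,39),(13,7),(14,25),(15,1),(18,2),(19,1)])
  (.L [(10,1),(11,19),(12,34),(13,2),(14,27),(15,3),(16,1),(17,2)]))

def tr7 : T1 :=
  (.N 0
  (.L [(8,25),(9,1),(11,1),(12,1),(13,2),(14,4),(15,51),(16,7),(17,39)])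
  (.L [(8,27),(9,3),(14,1),(15,19),(16,2),(17,34),(18,1),(19,2)]))

def tr8 : T1 :=
  (.N 0
  (.N 0
   (.L [(9,23),(11,1),(12,3),(14,2)])
   (.N 0
    (.L [(9,389),(11,1),(12,3),(13,1),(14,1)])
    (.N 0
     (.L [(9,259),(11,1),(12,3),(13,1),(14,1)])
     (.N 0
      (.L [(9,259),(11,1),(12,4),(13,2),(14,1)])
      (.L [(3,5),(5,2),(6,1),(7,3),(9,584),(11,14),(12,61),(13,47),(14,5),(16,13),(18,2)])))))
  (.N 1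
   (.N 0
    (.N 0
     (.N 0
      (.N 0
       (.L [(0,1),(1,2),(3,3),(7,5),(9,584),(11,13),(12,47),(13,61),(14,2),(16,14),(18,5)])
       (.L [(9,389),(10,4),(13,2),(16,1),(18,1)]))
      (.L [(9,389),(10,3),(13,2),(16,1),(18,1)]))
     (.L [(0,1),(9,876),(10,2),(12,1),(13,3),(14,1),(16,1),(18,1)]))
    (.L [(9,34),(10,2),(11,1),(13,5),(16,2),(18,5),(19,1)]))
   (.N 1
    (.L [(1,1),(3,3),(7,4),(9,173),(11,11),(12,39),(13,51),(14,2),(16,12),(18,4)])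
    (.N 1
     (.L [(3,4),(7,4),(9,259),(11,13),(14,3),(16,13),(18,3)])
     (.L [(3,5),(7,3),(9,259),(11,13),(12,57),(13,44),(14,4),(16,13),(18,2)])))))

def tr9 : T1 :=
  (.N 0
  (.N 0
   (.L [(8,23),(13,3),(16,1),(18,2)])
   (.N 0
    (.L [(8,389),(12,1),(13,3),(16,1),(18,1)])
    (.N 0
     (.L [(8,259),(12,1),(13,3),(16,1),(18,1)])
     (.N 0
      (.L [(8,259),(12,2),(13,4),(16,1),(18,1)])
      (.L [(0,1),(1,2),(3,3),(7,5),(8,584),(11,13),(12,47),(13,61),(14,2),(16,14),(18,5)])))))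
  (.N 1
   (.N 0
    (.N 0
     (.N 0
      (.N 0
       (.L [(3,5),(5,2),(6,1),(7,3),(8,584),(11,14),(12,61),(13,47),(14,5),(16,13),(18,2)])
       (.L [(8,389),(11,1),(12,2),(14,1),(17,4)]))
      (.L [(8,389),(11,1),(12,2),(14,1),(17,3)]))
     (.L [(6,1),(8,876),(11,1),(12,3),(13,1),(14,1),(17,2),(18,1)]))
    (.L [(8,34),(11,2),(12,5),(14,5),(15,1),(16,1),(17,2)]))
   (.N 1
    (.L [(3,4),(5,1),(7,3),(8,173),(11,12),(12,51),(13,39),(14,4),(16,11),(18,2)])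
    (.N 1
     (.L [(3,4),(7,4),(8,259),(11,13),(14,3),(16,13),(18,3)])
     (.L [(3,3),(7,5),(8,259),(11,13),(12,44),(13,57),(14,2),(16,13),(18,4)])))))

def tr10 : T1 :=
  (.N 0
  (.N 0
   (.L [(8,2),(11,23),(15,1),(17,3)])
   (.N 0
    (.L [(8,1),(11,389),(15,1),(16,1),(17,3)])
    (.N 0
     (.L [(8,1),(11,259),(15,1),(16,1),(17,3)])
     (.N 0
      (.L [(8,1),(11,259),(15,1),(16,2),(17,4)])
      (.L [(1,2),(3,3),(6,5),(7,1),(8,5),(11,584),(13,2),(15,14),(16,47),(17,61),(18,13)])))))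
  (.N 1
   (.N 0
    (.N 0
     (.N 0
      (.N 0
       (.L [(0,1),(2,2),(3,5),(6,3),(8,2),(11,584),(13,5),(15,13),(16,61),(17,47),(18,14)])
       (.L [(11,389),(13,1),(14,4),(16,2),(18,1)]))
      (.L [(11,389),(13,1),(14,3),(16,2),(18,1)]))
     (.L [(0,1),(8,1),(11,876),(13,1),(14,2),(16,3),(17,1),(18,1)]))
    (.L [(11,34),(12,1),(13,5),(14,2),(15,1),(16,5),(18,2)]))
   (.N 1
    (.L [(2,1),(3,4),(6,3),(8,2),(11,173),(13,4),(15,11),(16,51),(17,39),(18,12)])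
    (.N 1
     (.L [(3,4),(6,4),(8,3),(11,259),(13,3),(15,13),(18,13)])
     (.L [(3,3),(6,5),(8,4),(11,259),(13,2),(15,13),(16,44),(17,57),(18,13)])))))

def tr11 : T1 :=
  (.N 0
  (.N 0
   (.L [(10,23),(13,2),(16,3),(18,1)])
   (.N 0
    (.L [(10,389),(13,1),(16,3),(17,1),(18,1)])
    (.N 0
     (.L [(10,259),(13,1),(16,3),(17,1),(18,1)])
     (.N 0
      (.L [(10,259),(13,1),(16,4),(17,2),(18,1)])
      (.L [(0,1),(2,2),(3,5),(6,3),(8,2),(10,584),(13,5),(15,13),(16,61),(17,47),(18,14)])))))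
  (.N 1
   (.N 0
    (.N 0
     (.N 0
      (.N 0
       (.L [(1,2),(3,3),(6,5),(7,1),(8,5),(10,584),(13,2),(15,14),(16,47),(17,61),(18,13)])
       (.L [(8,1),(10,389),(15,1),(17,2),(19,4)]))
      (.L [(8,1),(10,389),(15,1),(17,2),(19,3)]))
     (.L [(7,1),(8,1),(10,876),(13,1),(15,1),(16,1),(17,3),(19,2)]))
    (.L [(8,5),(9,1),(10,34),(15,2),(17,5),(18,1),(19,2)]))
   (.N 1
    (.L [(1,1),(3,3),(6,4),(8,4),(10,173),(13,2),(15,12),(16,39),(17,51),(18,11)])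
    (.N 1
     (.L [(3,4),(6,4),(8,3),(10,259),(13,3),(15,13),(18,13)])
     (.L [(3,5),(6,3),(8,2),(10,259),(13,4),(15,13),(16,57),(17,44),(18,13)])))))

def tr12 : T1 :=
  (.N 0
  (.N 0
   (.L [(8,3),(13,23),(15,2),(17,1)])
   (.N 0
    (.L [(8,3),(9,1),(13,389),(15,1),(17,1)])
    (.N 0
     (.L [(8,3),(9,1),(13,259),(15,1),(17,1)])
     (.N 0
      (.L [(8,4),(9,2),(13,259),(15,1),(17,1)])
      (.L [(0,5),(2,2),(6,3),(7,1),(8,61),(9,47),(10,13),(13,584),(15,5),(17,14),(19,2)])))))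
  (.N 1
   (.N 0
    (.N 0
     (.N 0
      (.N 0
       (.L [(0,3),(3,1),(4,2),(6,5),(8,47),(9,61),(10,14),(13,584),(15,2),(17,13),(19,5)])
       (.L [(9,2),(10,1),(13,389),(16,4),(19,1)]))
      (.L [(9,2),(10,1),(13,389),(16,3),(19,1)]))
     (.L [(3,1),(8,1),(9,3),(10,1),(13,876),(15,1),(16,2),(19,1)]))
    (.L [(9,5),(10,2),(13,34),(16,2),(17,1),(18,1),(19,5)]))
   (.N 1
    (.L [(0,3),(4,1),(6,4),(8,39),(9,51),(10,12),(13,173),(15,2),(17,11),(19,4)])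
    (.N 1
     (.L [(0,4),(6,4),(10,13),(13,259),(15,3),(17,13),(19,3)])
     (.L [(0,5),(6,3),(8,57),(9,44),(10,13),(13,259),(15,4),(17,13),(19,2)])))))

def tr13 : T1 :=
  (.N 0
  (.N 0
   (.L [(9,3),(10,1),(12,23),(19,2)])
   (.N 0
    (.L [(8,1),(9,3),(10,1),(12,389),(19,1)])
    (.N 0
     (.L [(8,1),(9,3),(10,1),(12,259),(19,1)])
     (.N 0
      (.L [(8,2),(9,4),(10,1),(12,259),(19,1)])
      (.L [(0,3),(3,1),(4,2),(6,5),(8,47),(9,61),(10,14),(12,584),(15,2),(17,13),(19,5)])))))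
  (.N 1
   (.N 0
    (.N 0
     (.N 0
      (.N 0
       (.L [(0,5),(2,2),(6,3),(7,1),(8,61),(9,47),(10,13),(12,584),(15,5),(17,14),(19,2)])
       (.L [(8,2),(11,4),(12,389),(15,1),(17,1)]))
      (.L [(8,2),(11,3),(12,389),(15,1),(17,1)]))
     (.L [(7,1),(8,3),(9,1),(11,2),(12,876),(15,1),(17,1),(19,1)]))
    (.L [(8,5),(10,1),(11,2),(12,34),(14,1),(15,5),(17,2)]))
   (.N 1
    (.L [(0,4),(2,1),(6,3),(8,51),(9,39),(10,11),(12,173),(15,4),(17,12),(19,2)])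
    (.N 1
     (.L [(0,4),(6,4),(10,13),(12,259),(15,3),(17,13),(19,3)])
     (.L [(0,3),(6,5),(8,44),(9,57),(10,13),(12,259),(15,2),(17,13),(19,4)])))))

def tr14 : T1 :=
  (.N 0
  (.N 0
   (.L [(9,1),(10,2),(15,23),(19,3)])
   (.N 0
    (.L [(9,1),(10,1),(15,389),(18,1),(19,3)])
    (.N 0
     (.L [(9,1),(10,1),(15,259),(18,1),(19,3)])
     (.N 0
      (.L [(9,1),(10,1),(15,259),(18,2),(19,4)])
      (.L [(2,2),(3,1),(6,3),(7,5),(9,14),(10,5),(13,13),(15,584),(16,2),(18,47),(19,61)])))))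
  (.N 1
   (.N 0
    (.N 0
     (.N 0
      (.N 0
       (.L [(0,1),(5,2),(6,5),(7,3),(9,13),(10,2),(13,14),(15,584),(16,5),(18,61),(19,47)])
       (.L [(8,4),(13,1),(15,389),(16,1),(18,2)]))
      (.L [(8,3),(13,1),(15,389),(16,1),(18,2)]))
     (.L [(0,1),(8,2),(10,1),(13,1),(15,876),(16,1),(18,3),(19,1)]))
    (.L [(8,2),(9,1),(13,2),(15,34),(16,5),(17,1),(18,5)]))
   (.N 1
    (.L [(5,1),(6,4),(7,3),(9,11),(10,2),(13,12),(15,173),(16,4),(18,51),(19,39)])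
    (.N 1
     (.L [(6,4),(7,4),(9,13),(10,3),(13,13),(15,259),(16,3)])
     (.L [(6,3),(7,5),(9,13),(10,4),(13,13),(15,259),(16,2),(18,44),(19,57)])))))

def tr15 : T1 :=
  (.N 0
  (.N 0
   (.L [(13,1),(14,23),(16,2),(18,3)])
   (.N 0
    (.L [(13,1),(14,389),(16,1),(18,3),(19,1)])
    (.N 0
     (.L [(13,1),(14,259),(16,1),(18,3),(19,1)])
     (.N 0
      (.L [(13,1),(14,259),(16,1),(18,4),(19,2)])
      (.L [(0,1),(5,2),(6,5),(7,3),(9,13),(10,2),(13,14),(14,584),(16,5),(18,61),(19,47)])))))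
  (.N 1
   (.N 0
    (.N 0
     (.N 0
      (.N 0
       (.L [(2,2),(3,1),(6,3),(7,5),(9,14),(10,5),(13,13),(14,584),(16,2),(18,47),(19,61)])
       (.L [(9,1),(10,1),(12,4),(14,389),(19,2)]))
      (.L [(9,1),(10,1),(12,3),(14,389),(19,2)]))
     (.L [(3,1),(9,1),(10,1),(12,2),(14,876),(16,1),(18,1),(19,3)]))
    (.L [(9,2),(10,5),(11,1),(12,2),(13,1),(14,34),(19,5)]))
   (.N 1
    (.L [(2,1),(6,3),(7,4),(9,12),(10,4),(13,11),(14,173),(16,2),(18,39),(19,51)])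
    (.N 1
     (.L [(6,4),(7,4),(9,13),(10,3),(13,13),(14,259),(16,3)])
     (.L [(6,5),(7,3),(9,13),(10,2),(13,13),(14,259),(16,4),(18,57),(19,44)])))))

def tr16 : T1 :=
  (.N 0
  (.N 0
   (.L [(11,3),(12,2),(14,1),(17,23)])
   (.N 0
    (.L [(10,1),(11,3),(12,1),(14,1),(17,389)])
    (.N 0
     (.L [(10,1),(11,3),(12,1),(14,1),(17,259)])
     (.N 0
      (.L [(10,2),(11,4),(12,1),(14,1),(17,259)])
      (.L [(0,3),(4,2),(6,1),(7,5),(9,2),(10,47),(11,61),(12,5),(14,14),(17,584),(19,13)])))))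
  (.N 1
   (.N 0
    (.N 0
     (.N 0
      (.N 0
       (.L [(0,5),(3,1),(5,2),(7,3),(9,5),(10,61),(11,47),(12,2),(14,13),(17,584),(19,14)])
       (.L [(9,1),(10,2),(15,4),(17,389),(19,1)]))
      (.L [(9,1),(10,2),(15,3),(17,389),(19,1)]))
     (.L [(3,1),(9,1),(10,3),(11,1),(12,1),(15,2),(17,876),(19,1)]))
    (.L [(8,1),(9,5),(10,5),(14,1),(15,2),(17,34),(19,2)]))
   (.N 1
    (.L [(0,4),(5,1),(7,3),(9,4),(10,51),(11,39),(12,2),(14,11),(17,173),(19,12)])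
    (.N 1
     (.L [(0,4),(7,4),(9,3),(12,3),(14,13),(17,259),(19,13)])
     (.L [(0,3),(7,5),(9,2),(10,44),(11,57),(12,4),(14,13),(17,259),(19,13)])))))

def tr17 : T1 :=
  (.N 0
  (.N 0
   (.L [(9,2),(10,3),(16,23),(19,1)])
   (.N 0
    (.L [(9,1),(10,3),(11,1),(16,389),(19,1)])
    (.N 0
     (.L [(9,1),(10,3),(11,1),(16,259),(19,1)])
     (.N 0
      (.L [(9,1),(10,4),(11,2),(16,259),(19,1)])
      (.L [(0,5),(3,1),(5,2),(7,3),(9,5),(10,61),(11,47),(12,2),(14,13),(16,584),(19,14)])))))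
  (.N 1
   (.N 0
    (.N 0
     (.N 0
      (.N 0
       (.L [(0,3),(4,2),(6,1),(7,5),(9,2),(10,47),(11,61),(12,5),(14,14),(16,584),(19,13)])
       (.L [(11,2),(12,1),(14,1),(16,389),(18,4)]))
      (.L [(11,2),(12,1),(14,1),(16,389),(18,3)]))
     (.L [(6,1),(9,1),(10,1),(11,3),(12,1),(14,1),(16,876),(18,2)]))
    (.L [(11,5),(12,5),(13,1),(14,2),(16,34),(18,2),(19,1)]))
   (.N 1
    (.L [(0,3),(4,1),(7,4),(9,2),(10,39),(11,51),(12,4),(14,12),(16,173),(19,11)])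
    (.N 1
     (.L [(0,4),(7,4),(9,3),(12,3),(14,13),(16,259),(19,13)])
     (.L [(0,5),(7,3),(9,4),(10,57),(11,44),(12,2),(14,13),(16,259),(19,13)])))))

def tr18 : T1 :=
  (.N 0
  (.N 0
   (.L [(8,1),(15,3),(17,2),(19,23)])
   (.N 0
    (.L [(8,1),(14,1),(15,3),(17,1),(19,389)])
    (.N 0
     (.L [(8,1),(14,1),(15,3),(17,1),(19,259)])
     (.N 0
      (.L [(8,1),(14,2),(15,4),(17,1),(19,259)])
      (.L [(0,3),(3,5),(4,2),(7,1),(8,14),(11,2),(12,13),(14,47),(15,61),(17,5),(19,584)])))))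
  (.N 1
   (.N 0
    (.N 0
     (.N 0
      (.N 0
       (.L [(0,5),(1,2),(3,3),(6,1),(8,13),(11,5),(12,14),(14,61),(15,47),(17,2),(19,584)])
       (.L [(9,4),(11,1),(12,1),(14,2),(19,389)]))
      (.L [(9,3),(11,1),(12,1),(14,2),(19,389)]))
     (.L [(6,1),(9,2),(11,1),(12,1),(14,3),(15,1),(17,1),(19,876)]))
    (.L [(8,1),(9,2),(10,1),(11,5),(12,2),(14,5),(19,34)]))
   (.N 1
    (.L [(0,4),(1,1),(3,3),(8,11),(11,4),(12,12),(14,51),(15,39),(17,2),(19,173)])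
    (.N 1
     (.L [(0,4),(3,4),(8,13),(11,3),(12,13),(17,3),(19,259)])
     (.L [(0,3),(3,5),(8,13),(11,2),(12,13),(14,44),(15,57),(17,4),(19,259)])))))

def tr19 : T1 :=
  (.N 0
  (.N 0
   (.L [(11,2),(12,1),(14,3),(18,23)])
   (.N 0
    (.L [(11,1),(12,1),(14,3),(15,1),(18,389)])
    (.N 0
     (.L [(11,1),(12,1),(14,3),(15,1),(18,259)])
     (.N 0
      (.L [(11,1),(12,1),(14,4),(15,2),(18,259)])
      (.L [(0,5),(1,2),(3,3),(6,1),(8,13),(11,5),(12,14),(14,61),(15,47),(17,2),(18,584)])))))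
  (.N 1
   (.N 0
    (.N 0
     (.N 0
      (.N 0
       (.L [(0,3),(3,5),(4,2),(7,1),(8,14),(11,2),(12,13),(14,47),(15,61),(17,5),(18,584)])
       (.L [(8,1),(13,4),(15,2),(17,1),(18,389)]))
      (.L [(8,1),(13,3),(15,2),(17,1),(18,389)]))
     (.L [(7,1),(8,1),(11,1),(13,2),(14,1),(15,3),(17,1),(18,876)]))
    (.L [(8,2),(12,1),(13,2),(15,5),(16,1),(17,5),(18,34)]))
   (.N 1
    (.L [(0,3),(3,4),(4,1),(8,12),(11,2),(12,11),(14,39),(15,51),(17,4),(18,173)])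
    (.N 1
     (.L [(0,4),(3,4),(8,13),(11,3),(12,13),(17,3),(18,259)])
     (.L [(0,5),(3,3),(8,13),(11,4),(12,13),(14,57),(15,44),(17,2),(18,259)])))))

def oc0 : T2 :=
  (.N 0 12 29 1 ⟨12,29,0⟩
  (.N 1 12 841 1 ⟨144,348,841⟩
   (.N 2 12 22661 29 ⟨841,144,348⟩
    (.N 1 22661 144 841 ⟨348,841,144⟩
     (.N 2 1 781 22661 ⟨29,5,12⟩
      (.N 1 781 4447 144 ⟨10812,26129,4447⟩
       (.L 5)
       (.L 8))
      (.N 0 26117 901 1 ⟨21975209,3786977,9088716⟩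
       (.L 15)
       (.L 5)))
     (.N 1 781 1 22661 ⟨12,29,5⟩
      (.N 0 781 1 22661 ⟨29,5,12⟩
       (.N 2 781 21022 1 ⟨17688874,3049817,7319561⟩
        (.L 0)
        (.L 15))
       (.L 9))
      (.N 2 781 1 22661 ⟨5,12,29⟩
       (.L 11)
       (.N 0 21022 781 1 ⟨17688874,3049817,7319561⟩
        (.L 15)
        (.L 0)))))
    (.N 0 26117 1 29 ⟨901,1,0⟩
     (.L 15)
     (.N 1 901 26117 1 ⟨21975209,3786977,9088716⟩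
      (.L 5)
      (.L 15))))
   (.N 0 1 1 29 ⟨5,12,29⟩
    (.N 2 1 373 1 ⟨373,0,1⟩
     (.N 2 336072 1 373 ⟨1,0,901⟩
      (.L 11)
      (.L 2))
     (.L 14))
    (.L 11)))
  (.N 2 144 29 1 ⟨348,841,144⟩
   (.N 2 1 1 29 ⟨12,29,5⟩
    (.N 1 1 373 1 ⟨0,1,373⟩
     (.N 1 336072 1 373 ⟨0,901,1⟩
      (.L 9)
      (.L 1))
     (.L 10))
    (.L 9))
   (.N 0 1 4447 12 ⟨1,373,0⟩
    (.N 2 4447 781 144 ⟨10812,26129,4447⟩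
     (.L 8)
     (.L 5))
    (.L 8))))

def oc1 : T2 :=
  (.N 2 1 373 1 ⟨373,0,-1⟩
  (.N 1 1 373 1 ⟨0,1,-373⟩
   (.N 1 336072 1 373 ⟨0,901,-1⟩
    (.N 0 1 140030 1 ⟨373,140030,-1⟩
     (.L 5)
     (.L 8))
    (.L 5))
   (.N 2 336072 1 373 ⟨1,0,-901⟩
    (.L 17)
    (.L 5)))
  (.N 0 901 1 1 ⟨901,1,0⟩
   (.L 15)
   (.N 0 1 336072 901 ⟨1,373,0⟩
    (.L 5)
    (.N 1 140030 1 1 ⟨373,140030,-1⟩
     (.L 8)
     (.L 5)))))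

def oc2 : T2 :=
  (.N 2 1 373 1 ⟨373,0,1⟩
  (.N 1 1 373 1 ⟨0,-1,373⟩
   (.N 1 336072 1 373 ⟨0,-901,1⟩
    (.N 0 1 140030 1 ⟨373,-140030,1⟩
     (.L 2)
     (.L 12))
    (.L 2))
   (.N 2 336072 1 373 ⟨1,0,901⟩
    (.L 11)
    (.L 2)))
  (.N 0 901 1 1 ⟨901,-1,0⟩
   (.L 14)
   (.N 0 1 336072 901 ⟨1,-373,0⟩
    (.L 2)
    (.N 1 140030 1 1 ⟨373,-140030,1⟩
     (.L 12)
     (.L 2)))))

def oc3 : T2 :=
  (.N 1 12 29 1 ⟨0,-12,-29⟩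
  (.N 2 12 841 1 ⟨841,-144,-348⟩
   (.N 0 12 22661 29 ⟨348,-841,-144⟩
    (.N 2 22661 144 841 ⟨144,-348,-841⟩
     (.N 0 1 781 22661 ⟨12,-29,-5⟩
      (.N 2 781 4447 144 ⟨4447,-10812,-26129⟩
       (.L 4)
       (.L 16))
      (.N 1 26117 901 1 ⟨9088716,-21975209,-3786977⟩
       (.L 13)
       (.L 4)))
     (.N 1 781 1 22661 ⟨12,-29,-5⟩
      (.N 0 781 1 22661 ⟨29,-5,-12⟩
       (.N 2 781 21022 1 ⟨17688874,-3049817,-7319561⟩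
        (.L 3)
        (.L 14))
       (.L 13))
      (.N 2 781 1 22661 ⟨5,-12,-29⟩
       (.L 17)
       (.N 0 21022 781 1 ⟨17688874,-3049817,-7319561⟩
        (.L 14)
        (.L 3)))))
    (.N 1 26117 1 29 ⟨0,-901,-1⟩
     (.L 13)
     (.N 2 901 26117 1 ⟨9088716,-21975209,-3786977⟩
      (.L 4)
      (.L 13))))
   (.N 1 1 1 29 ⟨29,-5,-12⟩
    (.N 0 1 373 1 ⟨1,-373,0⟩
     (.N 0 336072 1 373 ⟨901,-1,0⟩
      (.L 14)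
      (.L 2))
     (.L 12))
    (.L 14)))
  (.N 0 144 29 1 ⟨144,-348,-841⟩
   (.N 0 1 1 29 ⟨5,-12,-29⟩
    (.N 2 1 373 1 ⟨373,0,-1⟩
     (.N 2 336072 1 373 ⟨1,0,-901⟩
      (.L 17)
      (.L 5))
     (.L 15))
    (.L 17))
   (.N 1 1 4447 12 ⟨0,-1,-373⟩
    (.N 0 4447 781 144 ⟨4447,-10812,-26129⟩
     (.L 16)
     (.L 4))
    (.L 16))))

def oc4 : T2 :=
  (.N 0 1 373 1 ⟨-1,373,0⟩
  (.N 2 1 373 1 ⟨-373,0,1⟩
   (.N 2 336072 1 373 ⟨-1,0,901⟩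
    (.N 1 1 140030 1 ⟨-1,373,140030⟩
     (.L 1)
     (.L 10))
    (.L 1))
   (.N 0 336072 1 373 ⟨-901,1,0⟩
    (.L 19)
    (.L 1)))
  (.N 1 901 1 1 ⟨0,901,1⟩
   (.L 9)
   (.N 1 1 336072 901 ⟨0,1,373⟩
    (.L 1)
    (.N 2 140030 1 1 ⟨-1,373,140030⟩
     (.L 10)
     (.L 1)))))

def oc5 : T2 :=
  (.N 0 12 29 1 ⟨-12,29,0⟩
  (.N 1 12 841 1 ⟨-144,348,-841⟩
   (.N 2 12 22661 29 ⟨-841,144,-348⟩
    (.N 1 22661 144 841 ⟨-348,841,-144⟩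
     (.N 2 1 781 22661 ⟨-29,5,-12⟩
      (.N 1 781 4447 144 ⟨-10812,26129,-4447⟩
       (.L 1)
       (.L 9))
      (.N 0 26117 901 1 ⟨-21975209,3786977,-9088716⟩
       (.L 19)
       (.L 1)))
     (.N 0 781 1 22661 ⟨-29,5,-12⟩
      (.N 2 781 1 22661 ⟨-5,12,-29⟩
       (.N 1 781 21022 1 ⟨-3049817,7319561,-17688874⟩
        (.L 6)
        (.L 16))
       (.L 19))
      (.N 1 781 1 22661 ⟨-12,29,-5⟩
       (.L 8)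
       (.N 2 21022 781 1 ⟨-3049817,7319561,-17688874⟩
        (.L 16)
        (.L 6)))))
    (.N 0 26117 1 29 ⟨-901,1,0⟩
     (.L 19)
     (.N 1 901 26117 1 ⟨-21975209,3786977,-9088716⟩
      (.L 1)
      (.L 19))))
   (.N 0 1 1 29 ⟨-5,12,-29⟩
    (.N 2 1 373 1 ⟨-373,0,-1⟩
     (.N 2 336072 1 373 ⟨-1,0,-901⟩
      (.L 16)
      (.L 4))
     (.L 18))
    (.L 16)))
  (.N 2 144 29 1 ⟨-348,841,-144⟩
   (.N 2 1 1 29 ⟨-12,29,-5⟩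
    (.N 1 1 373 1 ⟨0,1,-373⟩
     (.N 1 336072 1 373 ⟨0,901,-1⟩
      (.L 8)
      (.L 5))
     (.L 17))
    (.L 8))
   (.N 0 1 4447 12 ⟨-1,373,0⟩
    (.N 2 4447 781 144 ⟨-10812,26129,-4447⟩
     (.L 9)
     (.L 1))
    (.L 9))))

def oc6 : T2 :=
  (.N 0 12 29 1 ⟨-12,-29,0⟩
  (.N 1 12 841 1 ⟨-144,-348,841⟩
   (.N 2 12 22661 29 ⟨-841,-144,348⟩
    (.N 1 22661 144 841 ⟨-348,-841,144⟩
     (.N 2 1 781 22661 ⟨-29,-5,12⟩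
      (.N 1 781 4447 144 ⟨-10812,-26129,4447⟩
       (.L 4)
       (.L 13))
      (.N 0 26117 901 1 ⟨-21975209,-3786977,9088716⟩
       (.L 18)
       (.L 4)))
     (.N 0 781 1 22661 ⟨-29,-5,12⟩
      (.N 2 781 1 22661 ⟨-5,-12,29⟩
       (.N 1 781 21022 1 ⟨-3049817,-7319561,17688874⟩
        (.L 7)
        (.L 10))
       (.L 18))
      (.N 1 781 1 22661 ⟨-12,-29,5⟩
       (.L 12)
       (.N 2 21022 781 1 ⟨-3049817,-7319561,17688874⟩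
        (.L 10)
        (.L 7)))))
    (.N 0 26117 1 29 ⟨-901,-1,0⟩
     (.L 18)
     (.N 1 901 26117 1 ⟨-21975209,-3786977,9088716⟩
      (.L 4)
      (.L 18))))
   (.N 0 1 1 29 ⟨-5,-12,29⟩
    (.N 2 1 373 1 ⟨-373,0,1⟩
     (.N 2 336072 1 373 ⟨-1,0,901⟩
      (.L 10)
      (.L 1))
     (.L 19))
    (.L 10)))
  (.N 2 144 29 1 ⟨-348,-841,144⟩
   (.N 2 1 1 29 ⟨-12,-29,5⟩
    (.N 1 1 373 1 ⟨0,-1,373⟩
     (.N 1 336072 1 373 ⟨0,-901,1⟩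
      (.L 12)
      (.L 2))
     (.L 11))
    (.L 12))
   (.N 0 1 4447 12 ⟨-1,-373,0⟩
    (.N 2 4447 781 144 ⟨-10812,-26129,4447⟩
     (.L 13)
     (.L 4))
    (.L 13))))

def oc7 : T2 :=
  (.N 1 1 373 1 ⟨0,-1,-373⟩
  (.N 0 1 373 1 ⟨-1,-373,0⟩
   (.N 0 336072 1 373 ⟨-901,-1,0⟩
    (.N 2 1 140030 1 ⟨-140030,-1,-373⟩
     (.L 4)
     (.L 18))
    (.L 4))
   (.N 1 336072 1 373 ⟨0,-901,-1⟩
    (.L 13)
    (.L 4)))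
  (.N 2 901 1 1 ⟨-1,0,-901⟩
   (.L 16)
   (.N 2 1 336072 901 ⟨-373,0,-1⟩
    (.L 4)
    (.N 0 140030 1 1 ⟨-140030,-1,-373⟩
     (.L 18)
     (.L 4)))))


/-- separating vectors for pairs of faces -/
def FFl : List (List Z3) := [[⟨781,-323,-1⟩, ⟨-1,781,-323⟩, ⟨0,-5,29⟩, ⟨-1,901,373⟩, ⟨-323,-1,781⟩, ⟨29,0,-5⟩, ⟨-5,29,0⟩, ⟨-12,0,29⟩, ⟨-323,-1,781⟩, ⟨29,-12,0⟩, ⟨781,-323,-1⟩, ⟨-5,29,0⟩, ⟨-5,29,0⟩, ⟨0,29,-12⟩, ⟨-1,781,-323⟩, ⟨0,-5,29⟩, ⟨0,-5,29⟩, ⟨29,0,-5⟩, ⟨29,0,-5⟩],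
  [⟨-12,5,0⟩, ⟨1,901,373⟩, ⟨0,12,5⟩, ⟨-5,0,12⟩, ⟨-323,1,781⟩, ⟨-1,781,323⟩, ⟨-12,0,29⟩, ⟨-373,-1,901⟩, ⟨-901,373,-1⟩, ⟨-29,12,0⟩, ⟨0,12,5⟩, ⟨0,12,5⟩, ⟨-12,5,0⟩, ⟨-12,5,0⟩, ⟨-5,0,12⟩, ⟨-5,0,12⟩, ⟨0,29,12⟩, ⟨1,901,373⟩],
  [⟨323,-1,781⟩, ⟨5,0,12⟩, ⟨0,-12,5⟩, ⟨373,1,901⟩, ⟨781,-323,1⟩, ⟨0,-12,5⟩, ⟨0,-12,5⟩, ⟨29,-12,0⟩, ⟨901,-373,-1⟩, ⟨373,1,901⟩, ⟨12,0,29⟩, ⟨-1,-901,373⟩, ⟨0,-29,12⟩, ⟨5,0,12⟩, ⟨5,0,12⟩, ⟨12,-5,0⟩, ⟨12,-5,0⟩],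
  [⟨781,323,1⟩, ⟨-1,-781,323⟩, ⟨-5,-29,0⟩, ⟨29,0,5⟩, ⟨-5,-29,0⟩, ⟨-5,-29,0⟩, ⟨0,5,-29⟩, ⟨0,5,-29⟩, ⟨-12,0,-29⟩, ⟨-323,1,-781⟩, ⟨-1,-781,323⟩, ⟨0,-29,12⟩, ⟨29,12,0⟩, ⟨781,323,1⟩, ⟨29,0,5⟩, ⟨29,0,5⟩],
  [⟨-12,-5,0⟩, ⟨-1,-781,-323⟩, ⟨-323,-1,-781⟩, ⟨0,-12,-5⟩, ⟨0,-12,-5⟩, ⟨-5,0,-12⟩, ⟨-5,0,-12⟩, ⟨-12,0,-29⟩, ⟨-373,1,-901⟩, ⟨-12,-5,0⟩, ⟨-12,-5,0⟩, ⟨-901,-373,1⟩, ⟨-29,-12,0⟩, ⟨1,-901,-373⟩, ⟨0,-29,-12⟩],
  [⟨781,323,-1⟩, ⟨901,373,1⟩, ⟨373,-1,-901⟩, ⟨12,0,-29⟩, ⟨5,0,-12⟩, ⟨5,0,-12⟩, ⟨0,12,-5⟩, ⟨0,12,-5⟩, ⟨0,29,-12⟩, ⟨-1,901,-373⟩, ⟨29,12,0⟩, ⟨901,373,1⟩, ⟨12,5,0⟩, ⟨12,5,0⟩],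
  [⟨0,-5,-29⟩, ⟨323,-1,-781⟩, ⟨12,0,-29⟩, ⟨0,-5,-29⟩, ⟨0,-5,-29⟩, ⟨5,29,0⟩, ⟨5,29,0⟩, ⟨-29,0,5⟩, ⟨-29,0,5⟩, ⟨-781,-323,1⟩, ⟨-29,-12,0⟩, ⟨0,29,12⟩, ⟨1,781,323⟩],
  [⟨5,-29,0⟩, ⟨5,-29,0⟩, ⟨-781,323,-1⟩, ⟨-29,12,0⟩, ⟨323,1,781⟩, ⟨12,0,29⟩, ⟨-29,0,-5⟩, ⟨-29,0,-5⟩, ⟨0,5,29⟩, ⟨0,5,29⟩, ⟨1,-781,-323⟩, ⟨0,-29,-12⟩],
  [⟨12,0,-29⟩, ⟨12,0,-29⟩, ⟨12,0,-29⟩, ⟨0,12,-5⟩, ⟨0,12,5⟩, ⟨0,29,-12⟩, ⟨-1,781,-323⟩, ⟨-323,1,781⟩, ⟨-323,1,781⟩, ⟨0,29,12⟩, ⟨1,781,323⟩],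
  [⟨323,1,-781⟩, ⟨323,1,-781⟩, ⟨0,12,5⟩, ⟨0,12,5⟩, ⟨0,29,-12⟩, ⟨-1,781,-323⟩, ⟨-12,0,29⟩, ⟨-12,0,29⟩, ⟨0,29,12⟩, ⟨1,781,323⟩],
  [⟨-29,12,0⟩, ⟨323,1,781⟩, ⟨12,0,29⟩, ⟨-29,12,0⟩, ⟨-29,12,0⟩, ⟨-5,0,12⟩, ⟨-5,0,12⟩, ⟨781,-323,1⟩, ⟨781,-323,1⟩],
  [⟨323,1,781⟩, ⟨12,0,29⟩, ⟨-781,323,1⟩, ⟨-781,323,1⟩, ⟨5,0,12⟩, ⟨5,0,12⟩, ⟨29,-12,0⟩, ⟨29,-12,0⟩],
  [⟨12,0,29⟩, ⟨-1,-781,323⟩, ⟨0,-29,12⟩, ⟨12,0,29⟩, ⟨12,0,29⟩, ⟨1,-781,-323⟩, ⟨0,-29,-12⟩],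
  [⟨-1,-781,323⟩, ⟨0,-29,12⟩, ⟨323,-1,781⟩, ⟨323,-1,781⟩, ⟨1,-781,-323⟩, ⟨0,-29,-12⟩],
  [⟨0,-29,12⟩, ⟨29,12,0⟩, ⟨781,323,1⟩, ⟨12,-5,0⟩, ⟨12,5,0⟩],
  [⟨29,12,0⟩, ⟨781,323,1⟩, ⟨12,5,0⟩, ⟨12,-5,0⟩],
  [⟨-29,-12,0⟩, ⟨781,323,-1⟩, ⟨781,323,-1⟩],
  [⟨29,12,0⟩, ⟨29,12,0⟩],
  [⟨0,-29,-12⟩]]

/-- separating vectors for pairs of edges -/
def EEl : List (List Z3) := [[⟨-323,-1,781⟩, ⟨-373,-1,901⟩, ⟨901,-373,1⟩, ⟨29,-12,0⟩, ⟨-1,781,-323⟩, ⟨0,29,-12⟩, ⟨1,901,-373⟩, ⟨-901,373,1⟩, ⟨781,323,1⟩, ⟨901,373,-1⟩, ⟨323,-1,781⟩, ⟨373,-1,901⟩, ⟨29,12,0⟩, ⟨-162,390,229⟩, ⟨-12,0,29⟩, ⟨-373,1,901⟩, ⟨1,781,-323⟩, ⟨901,373,1⟩, ⟨1,781,323⟩, ⟨-1,901,373⟩, ⟨0,29,12⟩, ⟨781,323,-1⟩, ⟨12,0,29⟩, ⟨373,1,901⟩, ⟨1,901,373⟩, ⟨-323,1,781⟩, ⟨-1,781,323⟩, ⟨323,1,781⟩, ⟨781,-323,1⟩],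
  [⟨373,1,-901⟩, ⟨901,-373,1⟩, ⟨29,-12,0⟩, ⟨-1,781,-323⟩, ⟨0,29,-12⟩, ⟨1,901,-373⟩, ⟨390,229,-162⟩, ⟨781,323,1⟩, ⟨901,373,-1⟩, ⟨323,-1,781⟩, ⟨373,-1,901⟩, ⟨29,12,0⟩, ⟨-1,901,-373⟩, ⟨-12,0,29⟩, ⟨-373,1,901⟩, ⟨1,781,-323⟩, ⟨901,373,1⟩, ⟨1,781,323⟩, ⟨-1,901,373⟩, ⟨0,29,12⟩, ⟨781,323,-1⟩, ⟨12,0,29⟩, ⟨373,1,901⟩, ⟨1,901,373⟩, ⟨-323,1,781⟩, ⟨-1,781,323⟩, ⟨323,1,781⟩, ⟨781,-323,1⟩],
  [⟨-901,373,-1⟩, ⟨-29,12,0⟩, ⟨-1,781,-323⟩, ⟨0,29,-12⟩, ⟨1,901,-373⟩, ⟨-901,373,1⟩, ⟨-382,213,-154⟩, ⟨-13,200,85⟩, ⟨-14,46,-53⟩, ⟨0,17,-24⟩, ⟨-328,1,793⟩, ⟨-1,901,-373⟩, ⟨-12,0,29⟩, ⟨-373,1,901⟩, ⟨1,781,-323⟩, ⟨-328,1,793⟩, ⟨1,781,323⟩, ⟨-1,901,373⟩, ⟨0,29,12⟩, ⟨-328,1,793⟩, ⟨-19,29,-48⟩, ⟨-19,17,0⟩, ⟨1,901,373⟩, ⟨-323,1,781⟩, ⟨-1,781,323⟩, ⟨-373,301,-776⟩, ⟨-450,637,186⟩],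
  [⟨-29,12,0⟩, ⟨-793,328,1⟩, ⟨-793,328,1⟩, ⟨-793,328,1⟩, ⟨-901,373,1⟩, ⟨53,14,46⟩, ⟨0,19,17⟩, ⟨323,-1,781⟩, ⟨373,-1,901⟩, ⟨48,19,29⟩, ⟨-85,13,200⟩, ⟨-12,0,29⟩, ⟨-373,1,901⟩, ⟨154,382,213⟩, ⟨24,0,17⟩, ⟨-186,450,637⟩, ⟨-1,901,373⟩, ⟨0,29,12⟩, ⟨776,373,301⟩, ⟨12,0,29⟩, ⟨373,1,901⟩, ⟨1,901,373⟩, ⟨-323,1,781⟩, ⟨-1,781,323⟩, ⟨323,1,781⟩, ⟨781,-323,1⟩],
  [⟨-841,348,1⟩, ⟨-841,348,1⟩, ⟨-841,348,1⟩, ⟨-901,373,1⟩, ⟨5,-5,41⟩, ⟨5,-5,41⟩, ⟨323,-1,781⟩, ⟨373,-1,901⟩, ⟨0,0,1⟩, ⟨-348,144,781⟩, ⟨-12,0,29⟩, ⟨-373,1,901⟩, ⟨196,-8,477⟩, ⟨-5,5,41⟩, ⟨-196,8,477⟩, ⟨348,-144,781⟩, ⟨841,-348,1⟩, ⟨-5,5,41⟩, ⟨12,0,29⟩, ⟨373,1,901⟩, ⟨841,-348,1⟩, ⟨-323,1,781⟩, ⟨841,-348,1⟩, ⟨323,1,781⟩, ⟨781,-323,1⟩],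
  [⟨0,29,-12⟩, ⟨1,901,-373⟩, ⟨901,-373,-1⟩, ⟨781,323,1⟩, ⟨901,373,-1⟩, ⟨323,-1,781⟩, ⟨373,-1,901⟩, ⟨29,12,0⟩, ⟨1,-901,373⟩, ⟨-12,0,29⟩, ⟨-373,1,901⟩, ⟨1,781,-323⟩, ⟨901,373,1⟩, ⟨1,781,323⟩, ⟨-1,901,373⟩, ⟨0,29,12⟩, ⟨781,323,-1⟩, ⟨12,0,29⟩, ⟨373,1,901⟩, ⟨1,901,373⟩, ⟨-323,1,781⟩, ⟨-1,781,323⟩, ⟨323,1,781⟩, ⟨781,-323,1⟩],
  [⟨1,901,-373⟩, ⟨901,-373,-1⟩, ⟨781,323,1⟩, ⟨901,373,-1⟩, ⟨1,841,-348⟩, ⟨781,348,-144⟩, ⟨29,12,0⟩, ⟨1,-901,373⟩, ⟨1,-841,348⟩, ⟨1,-841,348⟩, ⟨1,781,-323⟩, ⟨901,373,1⟩, ⟨41,5,-5⟩, ⟨41,5,-5⟩, ⟨1,0,0⟩, ⟨781,323,-1⟩, ⟨1,841,-348⟩, ⟨1,841,-348⟩, ⟨41,-5,5⟩, ⟨477,196,-8⟩, ⟨41,-5,5⟩, ⟨477,-196,8⟩, ⟨781,-323,1⟩],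
  [⟨901,-373,-1⟩, ⟨781,323,1⟩, ⟨901,373,-1⟩, ⟨323,-1,781⟩, ⟨373,-1,901⟩, ⟨29,12,0⟩, ⟨1,-901,373⟩, ⟨1,-793,328⟩, ⟨1,-793,328⟩, ⟨1,781,-323⟩, ⟨901,373,1⟩, ⟨46,53,14⟩, ⟨17,0,19⟩, ⟨29,48,19⟩, ⟨781,323,-1⟩, ⟨12,0,29⟩, ⟨373,1,901⟩, ⟨17,24,0⟩, ⟨213,154,382⟩, ⟨301,776,373⟩, ⟨637,-186,450⟩, ⟨781,-323,1⟩],
  [⟨-776,-373,301⟩, ⟨-24,0,17⟩, ⟨323,-1,781⟩, ⟨373,-1,901⟩, ⟨-48,-19,29⟩, ⟨1,-901,373⟩, ⟨-12,0,29⟩, ⟨-373,1,901⟩, ⟨186,-450,637⟩, ⟨0,-19,17⟩, ⟨-154,-382,213⟩, ⟨85,-13,200⟩, ⟨793,-328,1⟩, ⟨-53,-14,46⟩, ⟨12,0,29⟩, ⟨373,1,901⟩, ⟨793,-328,1⟩, ⟨-323,1,781⟩, ⟨793,-328,1⟩, ⟨323,1,781⟩, ⟨781,-323,1⟩],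
  [⟨901,373,-1⟩, ⟨-323,1,-781⟩, ⟨-373,1,-901⟩, ⟨29,12,0⟩, ⟨1,-901,373⟩, ⟨12,0,-29⟩, ⟨373,-1,-901⟩, ⟨-1,-781,323⟩, ⟨-901,-373,-1⟩, ⟨-1,-781,-323⟩, ⟨1,-901,-373⟩, ⟨0,-29,-12⟩, ⟨781,323,-1⟩, ⟨-12,0,-29⟩, ⟨-373,-1,-901⟩, ⟨-1,-901,-373⟩, ⟨323,-1,-781⟩, ⟨1,-781,-323⟩, ⟨-323,-1,-781⟩, ⟨781,-323,1⟩],
  [⟨-323,1,-781⟩, ⟨-373,1,-901⟩, ⟨-29,-12,0⟩, ⟨-793,-328,-1⟩, ⟨12,0,-29⟩, ⟨373,-1,-901⟩, ⟨-793,-328,-1⟩, ⟨-901,-373,-1⟩, ⟨-1,-781,-323⟩, ⟨1,-901,-373⟩, ⟨0,-29,-12⟩, ⟨781,323,-1⟩, ⟨-12,0,-29⟩, ⟨-373,-1,-901⟩, ⟨-1,-901,-373⟩, ⟨323,-1,-781⟩, ⟨-186,-450,-637⟩, ⟨-323,-1,-781⟩, ⟨776,-373,-301⟩],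
  [⟨373,-1,901⟩, ⟨29,12,0⟩, ⟨1,-901,373⟩, ⟨12,0,-29⟩, ⟨373,-1,-901⟩, ⟨-1,-781,323⟩, ⟨390,-229,162⟩, ⟨-1,-781,-323⟩, ⟨1,-901,-373⟩, ⟨0,-29,-12⟩, ⟨781,323,-1⟩, ⟨-12,0,-29⟩, ⟨-373,-1,-901⟩, ⟨-1,-901,-373⟩, ⟨323,-1,-781⟩, ⟨1,-781,-323⟩, ⟨-323,-1,-781⟩, ⟨781,-323,1⟩],
  [⟨-29,-12,0⟩, ⟨1,-901,373⟩, ⟨-19,-29,48⟩, ⟨-19,-17,0⟩, ⟨-1,-781,323⟩, ⟨-901,-373,-1⟩, ⟨-1,-781,-323⟩, ⟨1,-901,-373⟩, ⟨0,-29,-12⟩, ⟨-450,-637,-186⟩, ⟨-12,0,-29⟩, ⟨-373,-1,-901⟩, ⟨-1,-901,-373⟩, ⟨-373,-301,776⟩, ⟨1,-781,-323⟩, ⟨-323,-1,-781⟩, ⟨-328,-1,-793⟩],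
  [⟨-841,-348,-1⟩, ⟨12,0,-29⟩, ⟨373,-1,-901⟩, ⟨-841,-348,-1⟩, ⟨-901,-373,-1⟩, ⟨841,348,-1⟩, ⟨841,348,-1⟩, ⟨841,348,-1⟩, ⟨781,323,-1⟩, ⟨-12,0,-29⟩, ⟨-373,-1,-901⟩, ⟨348,144,-781⟩, ⟨323,-1,-781⟩, ⟨-196,-8,-477⟩, ⟨-323,-1,-781⟩, ⟨-5,-5,-41⟩],
  [⟨12,0,-29⟩, ⟨373,-1,-901⟩, ⟨1,781,-323⟩, ⟨901,373,1⟩, ⟨301,-776,-373⟩, ⟨17,-24,0⟩, ⟨29,-48,-19⟩, ⟨781,323,-1⟩, ⟨1,793,-328⟩, ⟨1,793,-328⟩, ⟨17,0,-19⟩, ⟨637,186,-450⟩, ⟨46,-53,-14⟩, ⟨213,-154,-382⟩, ⟨781,-323,1⟩],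
  [⟨-373,1,901⟩, ⟨1,781,-323⟩, ⟨-348,1,841⟩, ⟨1,781,323⟩, ⟨-1,901,373⟩, ⟨0,29,12⟩, ⟨-348,1,841⟩, ⟨0,1,0⟩, ⟨5,41,-5⟩, ⟨1,901,373⟩, ⟨-323,1,781⟩, ⟨-1,781,323⟩, ⟨-5,41,5⟩, ⟨-8,477,196⟩],
  [⟨1,781,-323⟩, ⟨901,373,1⟩, ⟨1,781,323⟩, ⟨-1,901,373⟩, ⟨0,29,12⟩, ⟨781,323,-1⟩, ⟨19,29,48⟩, ⟨0,17,24⟩, ⟨1,901,373⟩, ⟨-323,1,781⟩, ⟨-1,781,323⟩, ⟨14,46,53⟩, ⟨382,213,154⟩],
  [⟨901,373,1⟩, ⟨-1,-781,-323⟩, ⟨1,-901,-373⟩, ⟨0,-29,-12⟩, ⟨781,323,-1⟩, ⟨-12,0,-29⟩, ⟨-373,-1,-901⟩, ⟨-1,-901,-373⟩, ⟨323,-1,-781⟩, ⟨1,-781,-323⟩, ⟨-323,-1,-781⟩, ⟨781,-323,1⟩],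
  [⟨793,328,-1⟩, ⟨793,328,-1⟩, ⟨793,328,-1⟩, ⟨781,323,-1⟩, ⟨-12,0,-29⟩, ⟨-373,-1,-901⟩, ⟨85,13,-200⟩, ⟨323,-1,-781⟩, ⟨-154,382,-213⟩, ⟨-323,-1,-781⟩, ⟨-53,14,-46⟩],
  [⟨-1,901,373⟩, ⟨0,29,12⟩, ⟨-781,-323,1⟩, ⟨-12,0,-29⟩, ⟨-373,-1,-901⟩, ⟨-1,-901,-373⟩, ⟨323,-1,-781⟩, ⟨-1,781,323⟩, ⟨-323,-1,-781⟩, ⟨-781,323,-1⟩],
  [⟨0,-29,-12⟩, ⟨-781,-323,1⟩, ⟨-12,0,-29⟩, ⟨-373,-1,-901⟩, ⟨-1,-901,-373⟩, ⟨-1,-793,-328⟩, ⟨-1,781,323⟩, ⟨-323,-1,-781⟩, ⟨-781,323,-1⟩],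
  [⟨-781,-323,1⟩, ⟨-1,841,348⟩, ⟨-781,348,144⟩, ⟨-1,-901,-373⟩, ⟨-1,-841,-348⟩, ⟨-1,781,323⟩, ⟨-1,841,348⟩, ⟨-781,323,-1⟩],
  [⟨-12,0,-29⟩, ⟨-373,-1,-901⟩, ⟨162,390,-229⟩, ⟨323,-1,-781⟩, ⟨-1,781,323⟩, ⟨-323,-1,-781⟩, ⟨-781,323,-1⟩],
  [⟨-373,-1,-901⟩, ⟨-1,-901,-373⟩, ⟨-5,-41,-5⟩, ⟨1,-781,-323⟩, ⟨-323,-1,-781⟩, ⟨-348,-1,-841⟩],
  [⟨-1,-901,-373⟩, ⟨14,-46,-53⟩, ⟨1,-781,-323⟩, ⟨-323,-1,-781⟩, ⟨781,-323,1⟩],
  [⟨-323,1,781⟩, ⟨-1,781,323⟩, ⟨-1,793,328⟩, ⟨-781,323,-1⟩],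
  [⟨-1,781,323⟩, ⟨-323,-1,-781⟩, ⟨-781,323,-1⟩],
  [⟨323,1,781⟩, ⟨-781,323,-1⟩],
  [⟨-781,323,-1⟩]]


def cornersNonneg (s : Z3) (f : ℕ) : Bool :=
  decide (0 ≤ Z3.dot s (P (F f).1)) && decide (0 ≤ Z3.dot s (P (F f).2.1)) &&
    decide (0 ≤ Z3.dot s (P (F f).2.2)) && (decide (0 < Z3.dot s (P (F f).1)) ||
    decide (0 < Z3.dot s (P (F f).2.1)) || decide (0 < Z3.dot s (P (F f).2.2)))

def cornersNonpos (s : Z3) (f : ℕ) : Bool :=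
  decide (Z3.dot s (P (F f).1) ≤ 0) && decide (Z3.dot s (P (F f).2.1) ≤ 0) &&
    decide (Z3.dot s (P (F f).2.2) ≤ 0) && (decide (Z3.dot s (P (F f).1) < 0) ||
    decide (Z3.dot s (P (F f).2.1) < 0) || decide (Z3.dot s (P (F f).2.2) < 0))

def chkFF : Bool :=
  (List.range 19).all fun f => (List.range (19 - f)).all fun k =>
    cornersNonneg ((FFl.getD f []).getD k ⟨0,0,0⟩) f &&
    cornersNonpos ((FFl.getD f []).getD k ⟨0,0,0⟩) (f + 1 + k)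

/-- `s` certifies that the cones over the edges `e`, `e'` meet only along a common vertex. -/
def sepOK (s : Z3) (e e' : ℕ × ℕ) : Bool :=
  if e.1 = e'.1 then
    decide (e.2 ≠ e'.2) && decide (Z3.dot s (P e.1) = 0) && decide (0 < Z3.dot s (P e.2)) &&
      decide (Z3.dot s (P e'.2) ≤ 0)
  else if e.1 = e'.2 then
    decide (e.2 ≠ e'.1) && decide (Z3.dot s (P e.1) = 0) && decide (0 < Z3.dot s (P e.2)) &&
      decide (Z3.dot s (P e'.1) ≤ 0)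
  else if e.2 = e'.1 then
    decide (e.1 ≠ e'.2) && decide (Z3.dot s (P e.2) = 0) && decide (0 < Z3.dot s (P e.1)) &&
      decide (Z3.dot s (P e'.2) ≤ 0)
  else if e.2 = e'.2 then
    decide (e.1 ≠ e'.1) && decide (Z3.dot s (P e.2) = 0) && decide (0 < Z3.dot s (P e.1)) &&
      decide (Z3.dot s (P e'.1) ≤ 0)
  else
    decide (0 < Z3.dot s (P e.1)) && decide (0 < Z3.dot s (P e.2)) &&
      decide (Z3.dot s (P e'.1) ≤ 0) && decide (Z3.dot s (P e'.2) ≤ 0)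

def chkEE : Bool :=
  (List.range 29).all fun a => (List.range (29 - a)).all fun k =>
    sepOK ((EEl.getD a []).getD k ⟨0,0,0⟩) (El.getD a (0,0)) (El.getD (a + 1 + k) (0,0))


theorem chkFF_true : chkFF = true := by decide +kernel

theorem chkEE_true : chkEE = true := by decide +kernel

theorem chk0 : check1 0 tr0 (P (F 0).1) (P (F 0).2.1) (P (F 0).2.2) = true := by decide +kernel

theorem chk1 : check1 1 tr1 (P (F 1).1) (P (F 1).2.1) (P (F 1).2.2) = true := by decide +kernel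

theorem chk2 : check1 2 tr2 (P (F 2).1) (P (F 2).2.1) (P (F 2).2.2) = true := by decide +kernel

theorem chk3 : check1 3 tr3 (P (F 3).1) (P (F 3).2.1) (P (F 3).2.2) = true := by decide +kernel

theorem chk4 : check1 4 tr4 (P (F 4).1) (P (F 4).2.1) (P (F 4).2.2) = true := by decide +kernel

theorem chk5 : check1 5 tr5 (P (F 5).1) (P (F 5).2.1) (P (F 5).2.2) = true := by decide +kernel

theorem chk6 : check1 6 tr6 (P (F 6).1) (P (F 6).2.1) (P (F 6).2.2) = true := by decide +kernel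

theorem chk7 : check1 7 tr7 (P (F 7).1) (P (F 7).2.1) (P (F 7).2.2) = true := by decide +kernel

theorem chk8 : check1 8 tr8 (P (F 8).1) (P (F 8).2.1) (P (F 8).2.2) = true := by decide +kernel

theorem chk9 : check1 9 tr9 (P (F 9).1) (P (F 9).2.1) (P (F 9).2.2) = true := by decide +kernel

theorem chk10 : check1 10 tr10 (P (F 10).1) (P (F 10).2.1) (P (F 10).2.2) = true := by decide +kernel

theorem chk11 : check1 11 tr11 (P (F 11).1) (P (F 11).2.1) (P (F 11).2.2) = true := by decide +kernel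

theorem chk12 : check1 12 tr12 (P (F 12).1) (P (F 12).2.1) (P (F 12).2.2) = true := by decide +kernel

theorem chk13 : check1 13 tr13 (P (F 13).1) (P (F 13).2.1) (P (F 13).2.2) = true := by decide +kernel

theorem chk14 : check1 14 tr14 (P (F 14).1) (P (F 14).2.1) (P (F 14).2.2) = true := by decide +kernel

theorem chk15 : check1 15 tr15 (P (F 15).1) (P (F 15).2.1) (P (F 15).2.2) = true := by decide +kernel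

theorem chk16 : check1 16 tr16 (P (F 16).1) (P (F 16).2.1) (P (F 16).2.2) = true := by decide +kernel

theorem chk17 : check1 17 tr17 (P (F 17).1) (P (F 17).2.1) (P (F 17).2.2) = true := by decide +kernel

theorem chk18 : check1 18 tr18 (P (F 18).1) (P (F 18).2.1) (P (F 18).2.2) = true := by decide +kernel

theorem chk19 : check1 19 tr19 (P (F 19).1) (P (F 19).2.1) (P (F 19).2.2) = true := by decide +kernel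

theorem cho0 : check2 oc0 ⟨1,0,0⟩ ⟨0,1,0⟩ ⟨0,0,1⟩ = true := by decide +kernel

theorem cho1 : check2 oc1 ⟨1,0,0⟩ ⟨0,1,0⟩ ⟨0,0,-1⟩ = true := by decide +kernel

theorem cho2 : check2 oc2 ⟨1,0,0⟩ ⟨0,-1,0⟩ ⟨0,0,1⟩ = true := by decide +kernel

theorem cho3 : check2 oc3 ⟨1,0,0⟩ ⟨0,-1,0⟩ ⟨0,0,-1⟩ = true := by decide +kernel

theorem cho4 : check2 oc4 ⟨-1,0,0⟩ ⟨0,1,0⟩ ⟨0,0,1⟩ = true := by decide +kernel

theorem cho5 : check2 oc5 ⟨-1,0,0⟩ ⟨0,1,0⟩ ⟨0,0,-1⟩ = true := by decide +kernel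

theorem cho6 : check2 oc6 ⟨-1,0,0⟩ ⟨0,-1,0⟩ ⟨0,0,1⟩ = true := by decide +kernel

theorem cho7 : check2 oc7 ⟨-1,0,0⟩ ⟨0,-1,0⟩ ⟨0,0,-1⟩ = true := by decide +kernel


end Helper479.Sink
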