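import Mathlib

/-!
Definitions for MP_bf58c1_co: shortest-path triangulations of the unit sphere, morphs,
longitudinal morphs, sinkable triangulations.
-/

namespace Helper479.Sink

open Set

/-- The unit sphere `S²` in `ℝ³ = (Fin 3 → ℝ)` (coordinates `0,1,2` are `x,y,z`). -/
def S2 : Set (Fin 3 → ℝ) := {x | x 0 ^ 2 + x 1 ^ 2 + x 2 ^ 2 = 1}

/-- The (closed) shorter great-circle arc between two distinct, non-antipodal points `p`, `q` of the
sphere: all points of the sphere that are nonnegative combinations of `p` and `q`. -/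
def arc (p q : Fin 3 → ℝ) : Set (Fin 3 → ℝ) :=
  {x | x ∈ S2 ∧ ∃ a b : ℝ, 0 ≤ a ∧ 0 ≤ b ∧ x = a • p + b • q}

/-- The union of all edges of a graph drawn on the sphere with vertices `v i` and shorter
great-circle arcs as edges. -/
def skeleton {n : ℕ} (G : SimpleGraph (Fin n)) (v : Fin n → Fin 3 → ℝ) : Set (Fin 3 → ℝ) :=
  {x | ∃ i j, G.Adj i j ∧ x ∈ arc (v i) (v j)}

/-- `U` is a face of the drawing: a connected component of the complement of the drawing in
the sphere. -/
def IsFace {n : ℕ} (G : SimpleGraph (Fin n)) (v : Fin n → Fin 3 → ℝ)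
    (U : Set (Fin 3 → ℝ)) : Prop :=
  ∃ x ∈ S2 \ skeleton G v, U = connectedComponentIn (S2 \ skeleton G v) x

/-- The face `U` is a spherical triangle with corners `i, j, k`: the three corners are pairwise
adjacent and the boundary of `U` (its closure minus `U`; faces are relatively open in the sphere)
is the union of the three arcs `ij, jk, ki`. -/
def IsTriangularFace {n : ℕ} (G : SimpleGraph (Fin n)) (v : Fin n → Fin 3 → ℝ)
    (U : Set (Fin 3 → ℝ)) (i j k : Fin n) : Prop :=
  IsFace G v U ∧ G.Adj i j ∧ G.Adj j k ∧ G.Adj k i ∧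
    closure U \ U = arc (v i) (v j) ∪ arc (v j) (v k) ∪ arc (v k) (v i)

/-- `v` (the positions of the vertices `0, …, n-1`) is a shortest-path triangulation of the sphere
with underlying graph `G`: at least four vertices, all on the sphere and distinct, no two adjacent
vertices antipodal, each edge drawn as the shorter great-circle arc, distinct edges meet only at
common endpoints, no vertex lies on an edge that does not end there, `G` is maximal planar (a plane
graph with `n` vertices is maximal planar iff it has `3n-6` edges), and every face is a spherical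
triangle bounded by the three arcs of a 3-cycle of `G`. -/
structure IsSPT {n : ℕ} (G : SimpleGraph (Fin n)) (v : Fin n → Fin 3 → ℝ) : Prop where
  four_le : 4 ≤ n
  mem_sphere : ∀ i, v i ∈ S2
  injective : Function.Injective v
  not_antipodal : ∀ i j, G.Adj i j → v i ≠ - v j
  edges_meet : ∀ i j k l, G.Adj i j → G.Adj k l → s(i, j) ≠ s(k, l) →
    ∀ x, x ∈ arc (v i) (v j) → x ∈ arc (v k) (v l) →
      ∃ m, m ∈ s(i, j) ∧ m ∈ s(k, l) ∧ x = v m
  vertex_edge : ∀ i j m, G.Adj i j → v m ∈ arc (v i) (v j) → m = i ∨ m = j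
  maximal : Nat.card G.edgeSet = 3 * n - 6
  faces : ∀ U, IsFace G v U → ∃ i j k, IsTriangularFace G v U i j k

/-- A point different from the two poles `(0,0,1)` and `(0,0,-1)` (for points of the sphere). -/
def NonPolar (x : Fin 3 → ℝ) : Prop := ¬ (x 0 = 0 ∧ x 1 = 0)

/-- The longitude of a non-polar point `p`: the open half great circle through `p` joining the
poles. -/
def longitude (p : Fin 3 → ℝ) : Set (Fin 3 → ℝ) :=
  {q | q ∈ S2 ∧ ∃ c : ℝ, 0 < c ∧ q 0 = c * p 0 ∧ q 1 = c * p 1}

/-- A morph: a continuous family `γ t`, `t ∈ [0,1]`, of shortest-path triangulations of the same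
graph with the same combinatorial embedding (the same triples of vertices bound faces). -/
structure IsMorph {n : ℕ} (G : SimpleGraph (Fin n)) (γ : ℝ → Fin n → Fin 3 → ℝ) : Prop where
  cont : ∀ i, ContinuousOn (fun t => γ t i) (Icc 0 1)
  spt : ∀ t ∈ Icc (0 : ℝ) 1, IsSPT G (γ t)
  same : ∀ t ∈ Icc (0 : ℝ) 1, ∀ i j k,
    (∃ U, IsTriangularFace G (γ t) U i j k) ↔ (∃ U, IsTriangularFace G (γ 0) U i j k)

/-- A morph is longitudinal if no vertex is ever at a pole and each vertex stays on one fixed
longitude. -/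
structure IsLongitudinal {n : ℕ} (γ : ℝ → Fin n → Fin 3 → ℝ) : Prop where
  nonpolar : ∀ t ∈ Icc (0 : ℝ) 1, ∀ i, NonPolar (γ t i)
  stays : ∀ t ∈ Icc (0 : ℝ) 1, ∀ i, γ t i ∈ longitude (γ 0 i)

/-- A triangulation `v` (with no vertex at a pole) is sinkable if some longitudinal morph takes it
to one with all vertices in the open southern hemisphere. -/
def Sinkable {n : ℕ} (G : SimpleGraph (Fin n)) (v : Fin n → Fin 3 → ℝ) : Prop :=
  ∃ γ : ℝ → Fin n → Fin 3 → ℝ, IsMorph G γ ∧ IsLongitudinal γ ∧ γ 0 = v ∧ ∀ i, γ 1 i 2 < 0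

end Helper479.Sink
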