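import Pool.Agent.Helper479.Sink.Cone

/-! Non-sinkability of every rotation of the 12-vertex triangulation (MP_bf58c1_co). -/

namespace Helper479.Sink

open Set

/-- horizontal cross product -/
def hA (a b : Fin 3 → ℝ) : ℝ := a 0 * b 1 - a 1 * b 0

/-- determinant of three vectors, expanded along the third coordinate -/
def det3 (a b c : Fin 3 → ℝ) : ℝ := a 2 * hA b c + b 2 * hA c a + c 2 * hA a b

lemma relation (a b c : Fin 3 → ℝ) (h : det3 a b c = 0) :
    hA b c • a + hA c a • b + hA a b • c = 0 := by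
  ext m
  fin_cases m
  · simp [hA]; ring
  · simp [hA]; ring
  · simp only [Fin.reduceFinMk, Pi.add_apply, Pi.smul_apply, smul_eq_mul, Pi.zero_apply]
    unfold det3 at h; linarith

lemma parallel {b c : Fin 3 → ℝ} (hb : b ∈ S2) (hc : c ∈ S2) {β γ : ℝ} (h : β • b + γ • c = 0)
    (hne : β ≠ 0 ∨ γ ≠ 0) : b = c ∨ b = -c := by
  have e : ∀ m, β * b m = - (γ * c m) := by
    intro m
    have := congrFun h m
    simp only [Pi.add_apply, Pi.smul_apply, smul_eq_mul, Pi.zero_apply] at this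
    linarith
  have hsq : β ^ 2 = γ ^ 2 := by
    have h1 : β ^ 2 * (b 0 ^ 2 + b 1 ^ 2 + b 2 ^ 2) = γ ^ 2 * (c 0 ^ 2 + c 1 ^ 2 + c 2 ^ 2) := by
      have e0 := e 0; have e1 := e 1; have e2 := e 2
      calc β ^ 2 * (b 0 ^ 2 + b 1 ^ 2 + b 2 ^ 2) = (β * b 0) ^ 2 + (β * b 1) ^ 2 + (β * b 2) ^ 2 := by ring
        _ = γ ^ 2 * (c 0 ^ 2 + c 1 ^ 2 + c 2 ^ 2) := by rw [e0, e1, e2]; ring
    rw [hb, hc] at h1; linarith
  have hβ : β ≠ 0 := by
    rcases hne with h1 | h1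
    · exact h1
    · intro h0; rw [h0] at hsq; apply h1; nlinarith [sq_nonneg γ]
  rcases sq_eq_sq_iff_eq_or_eq_neg.mp hsq with h1 | h1
  · right
    ext m
    have := e m
    rw [← h1] at this
    simp only [Pi.neg_apply]
    have h2 : β * (b m + c m) = 0 := by linarith
    rcases mul_eq_zero.mp h2 with h3 | h3
    · exact absurd h3 hβ
    · linarith
  · left
    ext m
    have := e m
    have h4 : γ = -β := by linarith
    rw [h4] at this
    have h2 : β * (b m - c m) = 0 := by linarith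
    rcases mul_eq_zero.mp h2 with h3 | h3
    · exact absurd h3 hβ
    · linarith

/-- if `α a + β b + γ c = 0` with `α` of sign opposite to `β, γ`, then `a` is on the arc `bc` -/
lemma on_arc {a b c : Fin 3 → ℝ} (ha : a ∈ S2) {α β γ : ℝ} (h : α • a + β • b + γ • c = 0)
    (hα : α ≠ 0) (h1 : 0 ≤ -β / α) (h2 : 0 ≤ -γ / α) : a ∈ arc b c := by
  refine ⟨ha, -β / α, -γ / α, h1, h2, ?_⟩
  ext m
  have := congrFun h m
  simp only [Pi.add_apply, Pi.smul_apply, smul_eq_mul, Pi.zero_apply] at this ⊢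
  field_simp
  linarith

/-- three mutually adjacent vertices of a triangulation on a common great circle surround it -/
lemma same_sign {n : ℕ} {G : SimpleGraph (Fin n)} {v : Fin n → Fin 3 → ℝ} (hv : IsSPT G v)
    {i j k : Fin n} (hij : G.Adj i j) (hjk : G.Adj j k) (hki : G.Adj k i) {α β γ : ℝ}
    (h : α • v i + β • v j + γ • v k = 0) (hne : ¬ (α = 0 ∧ β = 0 ∧ γ = 0)) :
    (0 < α ∧ 0 < β ∧ 0 < γ) ∨ (α < 0 ∧ β < 0 ∧ γ < 0) := by
  have nij : i ≠ j := hij.ne
  have njk : j ≠ k := hjk.ne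
  have nki : k ≠ i := hki.ne
  have hα : α ≠ 0 := by
    rintro rfl
    have h' : β • v j + γ • v k = 0 := by simpa using h
    have h2 : β ≠ 0 ∨ γ ≠ 0 := by
      by_contra hc; push Not at hc; exact hne ⟨rfl, hc.1, hc.2⟩
    rcases parallel (hv.mem_sphere j) (hv.mem_sphere k) h' h2 with h3 | h3
    · exact njk (hv.injective h3)
    · exact hv.not_antipodal j k hjk h3
  have hβ : β ≠ 0 := by
    rintro rfl
    have h' : α • v i + γ • v k = 0 := by simpa using h
    rcases parallel (hv.mem_sphere i) (hv.mem_sphere k) h' (Or.inl hα) with h3 | h3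
    · exact nki (hv.injective h3).symm
    · exact hv.not_antipodal i k hki.symm h3
  have hγ : γ ≠ 0 := by
    rintro rfl
    have h' : α • v i + β • v j = 0 := by simpa using h
    rcases parallel (hv.mem_sphere i) (hv.mem_sphere j) h' (Or.inl hα) with h3 | h3
    · exact nij (hv.injective h3)
    · exact hv.not_antipodal i j hij h3
  have hb : β • v j + α • v i + γ • v k = 0 := by rw [← h]; abel
  have hc : γ • v k + α • v i + β • v j = 0 := by rw [← h]; abel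
  have c1 : ¬ (0 ≤ -β / α ∧ 0 ≤ -γ / α) := by
    rintro ⟨h1, h2⟩
    have := hv.vertex_edge j k i hjk (on_arc (hv.mem_sphere i) h hα h1 h2)
    rcases this with h3 | h3
    · exact nij h3
    · exact nki h3.symm
  have c2 : ¬ (0 ≤ -α / β ∧ 0 ≤ -γ / β) := by
    rintro ⟨h1, h2⟩
    have := hv.vertex_edge i k j hki.symm (on_arc (hv.mem_sphere j) hb hβ h1 h2)
    rcases this with h3 | h3
    · exact nij h3.symm
    · exact njk h3
  have c3 : ¬ (0 ≤ -α / γ ∧ 0 ≤ -β / γ) := by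
    rintro ⟨h1, h2⟩
    have := hv.vertex_edge i j k hij (on_arc (hv.mem_sphere k) hc hγ h1 h2)
    rcases this with h3 | h3
    · exact nki h3
    · exact njk h3.symm
  have q1 : ∀ x y : ℝ, x < 0 → 0 < y → 0 ≤ -x / y := fun x y hx hy =>
    (div_pos (by linarith) hy).le
  have q2 : ∀ x y : ℝ, 0 < x → y < 0 → 0 ≤ -x / y := fun x y hx hy =>
    (div_pos_of_neg_of_neg (by linarith) hy).le
  rcases lt_or_gt_of_ne hα with a | a <;> rcases lt_or_gt_of_ne hβ with b | b <;>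
    rcases lt_or_gt_of_ne hγ with c | c
  · right; exact ⟨a, b, c⟩
  · exact absurd ⟨q1 _ _ a c, q1 _ _ b c⟩ c3
  · exact absurd ⟨q1 _ _ a b, q1 _ _ c b⟩ c2
  · exact absurd ⟨q2 _ _ b a, q2 _ _ c a⟩ c1
  · exact absurd ⟨q1 _ _ b a, q1 _ _ c a⟩ c1
  · exact absurd ⟨q2 _ _ a b, q2 _ _ c b⟩ c2
  · exact absurd ⟨q2 _ _ a c, q2 _ _ b c⟩ c3
  · left; exact ⟨a, b, c⟩

/-- the flip lemma: a face not containing the north pole stays positively oriented -/
lemma flip {n : ℕ} {G : SimpleGraph (Fin n)} {γ : ℝ → Fin n → Fin 3 → ℝ} (hm : IsMorph G γ)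
    (hl : IsLongitudinal γ) (hs : ∀ i, γ 1 i 2 < 0) {i j k : Fin n} (hij : G.Adj i j)
    (hjk : G.Adj j k) (hki : G.Adj k i) (h0 : 0 < det3 (γ 0 i) (γ 0 j) (γ 0 k))
    (hN : ¬ (0 < hA (γ 0 j) (γ 0 k) ∧ 0 < hA (γ 0 k) (γ 0 i) ∧ 0 < hA (γ 0 i) (γ 0 j))) :
    0 < det3 (γ 1 i) (γ 1 j) (γ 1 k) := by
  by_contra hcon
  push Not at hcon
  have hcont : ContinuousOn (fun t => det3 (γ t i) (γ t j) (γ t k)) (Icc (0:ℝ) 1) := by
    have hc : ∀ (l : Fin n) (m : Fin 3), ContinuousOn (fun t => γ t l m) (Icc (0:ℝ) 1) :=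
      fun l m => (continuous_apply m).comp_continuousOn (hm.cont l)
    unfold det3 hA
    have h00 := hc i 0; have h01 := hc i 1; have h02 := hc i 2
    have h10 := hc j 0; have h11 := hc j 1; have h12 := hc j 2
    have h20 := hc k 0; have h21 := hc k 1; have h22 := hc k 2
    fun_prop
  obtain ⟨t, ht, hD⟩ : ∃ t ∈ Icc (0:ℝ) 1, det3 (γ t i) (γ t j) (γ t k) = 0 := by
    have := intermediate_value_Icc' (zero_le_one (α := ℝ)) hcont
    obtain ⟨t, ht, h⟩ := this ⟨hcon, h0.le⟩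
    exact ⟨t, ht, h⟩
  have scale : ∀ s ∈ Icc (0:ℝ) 1, ∀ a b : Fin n, ∃ c : ℝ, 0 < c ∧
      hA (γ s a) (γ s b) = c * hA (γ 0 a) (γ 0 b) := by
    intro s hs' a b
    obtain ⟨-, c, hc, h1, h2⟩ := hl.stays s hs' a
    obtain ⟨-, d, hd, h3, h4⟩ := hl.stays s hs' b
    exact ⟨c * d, by positivity, by unfold hA; rw [h1, h2, h3, h4]; ring⟩
  obtain ⟨c1, hc1, e1⟩ := scale t ht j k
  obtain ⟨c2, hc2, e2⟩ := scale t ht k i
  obtain ⟨c3, hc3, e3⟩ := scale t ht i j
  have hrel := relation _ _ _ hD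
  have hne : ¬ (hA (γ t j) (γ t k) = 0 ∧ hA (γ t k) (γ t i) = 0 ∧ hA (γ t i) (γ t j) = 0) := by
    rintro ⟨z1, z2, z3⟩
    rw [e1] at z1; rw [e2] at z2; rw [e3] at z3
    have w1 : hA (γ 0 j) (γ 0 k) = 0 := by
      rcases mul_eq_zero.mp z1 with h | h
      · exact absurd h hc1.ne'
      · exact h
    have w2 : hA (γ 0 k) (γ 0 i) = 0 := by
      rcases mul_eq_zero.mp z2 with h | h
      · exact absurd h hc2.ne'
      · exact h
    have w3 : hA (γ 0 i) (γ 0 j) = 0 := by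
      rcases mul_eq_zero.mp z3 with h | h
      · exact absurd h hc3.ne'
      · exact h
    unfold det3 at h0
    rw [w1, w2, w3] at h0
    simp at h0
  rcases same_sign (hm.spt t ht) hij hjk hki hrel hne with ⟨p1, p2, p3⟩ | ⟨p1, p2, p3⟩
  · apply hN
    rw [e1] at p1; rw [e2] at p2; rw [e3] at p3
    exact ⟨(pos_iff_pos_of_mul_pos p1).mp hc1, (pos_iff_pos_of_mul_pos p2).mp hc2,
      (pos_iff_pos_of_mul_pos p3).mp hc3⟩
  · rw [e1] at p1; rw [e2] at p2; rw [e3] at p3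
    have q1 : hA (γ 0 j) (γ 0 k) < 0 := by nlinarith
    have q2 : hA (γ 0 k) (γ 0 i) < 0 := by nlinarith
    have q3 : hA (γ 0 i) (γ 0 j) < 0 := by nlinarith
    obtain ⟨d1, hd1, f1⟩ := scale 1 (by simp) j k
    obtain ⟨d2, hd2, f2⟩ := scale 1 (by simp) k i
    obtain ⟨d3, hd3, f3⟩ := scale 1 (by simp) i j
    unfold det3 at hcon
    rw [f1, f2, f3] at hcon
    have g1 := mul_pos_of_neg_of_neg (hs i) (mul_neg_of_pos_of_neg hd1 q1)
    have g2 := mul_pos_of_neg_of_neg (hs j) (mul_neg_of_pos_of_neg hd2 q2)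
    have g3 := mul_pos_of_neg_of_neg (hs k) (mul_neg_of_pos_of_neg hd3 q3)
    linarith

end Helper479.Sink
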