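import Pool.Agent.Helper479.Sink.NoSink

/-! Non-sinkability of every rotation of the 12-vertex triangulation (MP_bf58c1_co). -/

namespace Helper479.Sink

open Set

def adjB (i j : ℕ) : Bool :=
  El.any (fun e => (decide (e.1 = i) && decide (e.2 = j)) || (decide (e.1 = j) && decide (e.2 = i)))

/-- The graph of the example (the graph of the icosahedron). -/
def G12 : SimpleGraph (Fin 12) where
  Adj i j := adjB i.val j.val = true
  symm := by
    have : ∀ i j : Fin 12, adjB i.val j.val = true → adjB j.val i.val = true := by decide +kernel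
    exact ⟨fun i j h => this i j h⟩
  loopless := ⟨by
    have : ∀ i : Fin 12, ¬ (adjB i.val i.val = true) := by decide +kernel
    exact this⟩

instance : DecidableRel G12.Adj := fun i j => inferInstanceAs (Decidable (adjB i.val j.val = true))

/-- The normalising constant. -/
noncomputable def c12 : ℝ := (Real.sqrt 1010)⁻¹

lemma c12_pos : 0 < c12 := by unfold c12; positivity

lemma c12_sq : c12 ^ 2 * 1010 = 1 := by
  unfold c12
  rw [inv_pow, Real.sq_sqrt (by norm_num)]; norm_num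

/-- The vertices of the example. -/
noncomputable def v12 (i : Fin 12) : Fin 3 → ℝ := c12 • toR (P i.val)

/-- the core of the example: every direction has a certificate -/
lemma core (M : Fin 3 → ℝ) : ∃ f < 20, InCone f M ∧ Cert f M := by
  obtain ⟨f, hf, hM⟩ := cover M
  refine ⟨f, hf, hM, ?_⟩
  have hc : Cone3 (toR (P (F f).1)) (toR (P (F f).2.1)) (toR (P (F f).2.2)) M := by
    have h := cramer hf M
    have hD := Df_pos hf
    refine ⟨dR (cv f (F f).1) M / Df f, dR (cv f (F f).2.1) M / Df f, dR (cv f (F f).2.2) M / Df f,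
      div_nonneg hM.1 hD.le, div_nonneg hM.2.1 hD.le, div_nonneg hM.2.2 hD.le, ?_⟩
    have h2 : (Df f)⁻¹ • (Df f • M) = M := by rw [smul_smul, inv_mul_cancel₀ hD.ne', one_smul]
    rw [h, smul_add, smul_add, smul_smul, smul_smul, smul_smul] at h2
    simp only [div_eq_inv_mul]
    exact h2.symm
  interval_cases f
  · exact check1_sound 0 tr0 _ _ _ chk0 M hc
  · exact check1_sound 1 tr1 _ _ _ chk1 M hc
  · exact check1_sound 2 tr2 _ _ _ chk2 M hc
  · exact check1_sound 3 tr3 _ _ _ chk3 M hc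
  · exact check1_sound 4 tr4 _ _ _ chk4 M hc
  · exact check1_sound 5 tr5 _ _ _ chk5 M hc
  · exact check1_sound 6 tr6 _ _ _ chk6 M hc
  · exact check1_sound 7 tr7 _ _ _ chk7 M hc
  · exact check1_sound 8 tr8 _ _ _ chk8 M hc
  · exact check1_sound 9 tr9 _ _ _ chk9 M hc
  · exact check1_sound 10 tr10 _ _ _ chk10 M hc
  · exact check1_sound 11 tr11 _ _ _ chk11 M hc
  · exact check1_sound 12 tr12 _ _ _ chk12 M hc
  · exact check1_sound 13 tr13 _ _ _ chk13 M hc
  · exact check1_sound 14 tr14 _ _ _ chk14 M hc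
  · exact check1_sound 15 tr15 _ _ _ chk15 M hc
  · exact check1_sound 16 tr16 _ _ _ chk16 M hc
  · exact check1_sound 17 tr17 _ _ _ chk17 M hc
  · exact check1_sound 18 tr18 _ _ _ chk18 M hc
  · exact check1_sound 19 tr19 _ _ _ chk19 M hc

/-- `s` weakly separates face `f` from face `g` -/
def SepF (s : Z3) (f g : ℕ) : Prop := cornersNonneg s f = true ∧ cornersNonpos s g = true

lemma sepF_exists {f g : ℕ} (hf : f < 20) (hg : g < 20) (hne : f ≠ g) :
    ∃ s, SepF s f g ∨ SepF s g f := by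
  have key : ∀ f g : ℕ, f < g → g < 20 → ∃ s, SepF s f g := by
    intro f g hfg hg
    have h := chkFF_true
    simp only [chkFF, List.all_eq_true, List.mem_range, Bool.and_eq_true] at h
    obtain ⟨k, rfl⟩ := Nat.exists_eq_add_of_lt hfg
    have h1 := h f (by omega) k (by omega)
    refine ⟨(FFl.getD f []).getD k ⟨0,0,0⟩, h1.1, ?_⟩
    have : f + k + 1 = f + 1 + k := by ring
    rw [this]; exact h1.2
  rcases Nat.lt_or_gt_of_ne hne with h | h
  · obtain ⟨s, hs⟩ := key f g h hg; exact ⟨s, Or.inl hs⟩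
  · obtain ⟨s, hs⟩ := key g f h hf; exact ⟨s, Or.inr hs⟩

lemma dR_nonneg_of {f : ℕ} (hf : f < 20) {M : Fin 3 → ℝ} (hM : InCone f M) {s : Z3}
    (h1 : 0 ≤ Z3.dot s (P (F f).1)) (h2 : 0 ≤ Z3.dot s (P (F f).2.1))
    (h3 : 0 ≤ Z3.dot s (P (F f).2.2)) : 0 ≤ dR s M := by
  have h := congrArg (dR s) (cramer hf M)
  rw [dR_smul, dR_comb, dR_toR, dR_toR, dR_toR] at h
  have h1' : (0:ℝ) ≤ ((Z3.dot s (P (F f).1) : ℤ) : ℝ) := by exact_mod_cast h1
  have h2' : (0:ℝ) ≤ ((Z3.dot s (P (F f).2.1) : ℤ) : ℝ) := by exact_mod_cast h2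
  have h3' : (0:ℝ) ≤ ((Z3.dot s (P (F f).2.2) : ℤ) : ℝ) := by exact_mod_cast h3
  obtain ⟨m1, m2, m3⟩ := hM
  have : 0 ≤ Df f * dR s M := by rw [h]; positivity
  exact nonneg_of_mul_nonneg_right this (Df_pos hf)

lemma dR_nonpos_of {f : ℕ} (hf : f < 20) {M : Fin 3 → ℝ} (hM : InCone f M) {s : Z3}
    (h1 : Z3.dot s (P (F f).1) ≤ 0) (h2 : Z3.dot s (P (F f).2.1) ≤ 0)
    (h3 : Z3.dot s (P (F f).2.2) ≤ 0) : dR s M ≤ 0 := by
  have h := congrArg (dR s) (cramer hf M)
  rw [dR_smul, dR_comb, dR_toR, dR_toR, dR_toR] at h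
  have h1' : ((Z3.dot s (P (F f).1) : ℤ) : ℝ) ≤ 0 := by exact_mod_cast h1
  have h2' : ((Z3.dot s (P (F f).2.1) : ℤ) : ℝ) ≤ 0 := by exact_mod_cast h2
  have h3' : ((Z3.dot s (P (F f).2.2) : ℤ) : ℝ) ≤ 0 := by exact_mod_cast h3
  obtain ⟨m1, m2, m3⟩ := hM
  have : Df f * dR s M ≤ 0 := by
    rw [h]
    have := mul_nonpos_of_nonneg_of_nonpos m1 h1'
    have := mul_nonpos_of_nonneg_of_nonpos m2 h2'
    have := mul_nonpos_of_nonneg_of_nonpos m3 h3'
    linarith
  by_contra hc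
  push Not at hc
  have := mul_pos (Df_pos hf) hc
  linarith

lemma InOpen.inCone {f : ℕ} {M : Fin 3 → ℝ} (h : InOpen f M) : InCone f M :=
  ⟨h.1.le, h.2.1.le, h.2.2.le⟩

lemma dR_pos_of {f : ℕ} (hf : f < 20) {M : Fin 3 → ℝ} (hM : InOpen f M) {s : Z3}
    (h : cornersNonneg s f = true) : 0 < dR s M := by
  simp only [cornersNonneg, Bool.and_eq_true, Bool.or_eq_true, decide_eq_true_eq] at h
  obtain ⟨⟨⟨h1, h2⟩, h3⟩, h4⟩ := h
  have hh := congrArg (dR s) (cramer hf M)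
  rw [dR_smul, dR_comb, dR_toR, dR_toR, dR_toR] at hh
  have h1' : (0:ℝ) ≤ ((Z3.dot s (P (F f).1) : ℤ) : ℝ) := by exact_mod_cast h1
  have h2' : (0:ℝ) ≤ ((Z3.dot s (P (F f).2.1) : ℤ) : ℝ) := by exact_mod_cast h2
  have h3' : (0:ℝ) ≤ ((Z3.dot s (P (F f).2.2) : ℤ) : ℝ) := by exact_mod_cast h3
  obtain ⟨m1, m2, m3⟩ := hM
  have a1 := mul_nonneg m1.le h1'
  have a2 := mul_nonneg m2.le h2'
  have a3 := mul_nonneg m3.le h3'
  have : 0 < Df f * dR s M := by
    rw [hh]
    rcases h4 with (h4 | h4) | h4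
    · have h4' : (0:ℝ) < ((Z3.dot s (P (F f).1) : ℤ) : ℝ) := by exact_mod_cast h4
      have := mul_pos m1 h4'
      linarith
    · have h4' : (0:ℝ) < ((Z3.dot s (P (F f).2.1) : ℤ) : ℝ) := by exact_mod_cast h4
      have := mul_pos m2 h4'
      linarith
    · have h4' : (0:ℝ) < ((Z3.dot s (P (F f).2.2) : ℤ) : ℝ) := by exact_mod_cast h4
      have := mul_pos m3 h4'
      linarith
  exact (pos_iff_pos_of_mul_pos this).mp (Df_pos hf)

lemma dR_neg_of {f : ℕ} (hf : f < 20) {M : Fin 3 → ℝ} (hM : InOpen f M) {s : Z3}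
    (h : cornersNonpos s f = true) : dR s M < 0 := by
  simp only [cornersNonpos, Bool.and_eq_true, Bool.or_eq_true, decide_eq_true_eq] at h
  obtain ⟨⟨⟨h1, h2⟩, h3⟩, h4⟩ := h
  have hh := congrArg (dR s) (cramer hf M)
  rw [dR_smul, dR_comb, dR_toR, dR_toR, dR_toR] at hh
  have h1' : ((Z3.dot s (P (F f).1) : ℤ) : ℝ) ≤ 0 := by exact_mod_cast h1
  have h2' : ((Z3.dot s (P (F f).2.1) : ℤ) : ℝ) ≤ 0 := by exact_mod_cast h2
  have h3' : ((Z3.dot s (P (F f).2.2) : ℤ) : ℝ) ≤ 0 := by exact_mod_cast h3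
  obtain ⟨m1, m2, m3⟩ := hM
  have a1 := mul_nonpos_of_nonneg_of_nonpos m1.le h1'
  have a2 := mul_nonpos_of_nonneg_of_nonpos m2.le h2'
  have a3 := mul_nonpos_of_nonneg_of_nonpos m3.le h3'
  have : Df f * dR s M < 0 := by
    rw [hh]
    rcases h4 with (h4 | h4) | h4
    · have h4' : ((Z3.dot s (P (F f).1) : ℤ) : ℝ) < 0 := by exact_mod_cast h4
      have := mul_neg_of_pos_of_neg m1 h4'
      linarith
    · have h4' : ((Z3.dot s (P (F f).2.1) : ℤ) : ℝ) < 0 := by exact_mod_cast h4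
      have := mul_neg_of_pos_of_neg m2 h4'
      linarith
    · have h4' : ((Z3.dot s (P (F f).2.2) : ℤ) : ℝ) < 0 := by exact_mod_cast h4
      have := mul_neg_of_pos_of_neg m3 h4'
      linarith
  by_contra hc
  push Not at hc
  have := mul_nonneg (Df_pos hf).le hc
  linarith

/-- a closed face cone does not meet the open cone of another face -/
lemma disj {f g : ℕ} (hf : f < 20) (hg : g < 20) (hne : f ≠ g) {M : Fin 3 → ℝ}
    (h1 : InCone f M) (h2 : InOpen g M) : False := by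
  obtain ⟨s, ⟨ha, hb⟩ | ⟨ha, hb⟩⟩ := sepF_exists hf hg hne
  · have := dR_neg_of hg h2 hb
    simp only [cornersNonneg, Bool.and_eq_true, Bool.or_eq_true, decide_eq_true_eq] at ha
    have := dR_nonneg_of hf h1 ha.1.1.1 ha.1.1.2 ha.1.2
    linarith
  · have := dR_pos_of hg h2 ha
    simp only [cornersNonpos, Bool.and_eq_true, Bool.or_eq_true, decide_eq_true_eq] at hb
    have := dR_nonpos_of hf h1 hb.1.1.1 hb.1.1.2 hb.1.2
    linarith

/-- sum of the vertex coefficients of a face -/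
lemma sum_face {g : ℕ} (hg : g < 20) (ζ : ℕ → ℝ) (N : Fin 3 → ℝ) :
    ∑ i ∈ Finset.range 12, ζ i * dR (cv g i) N =
      ζ (F g).1 * dR (cv g (F g).1) N + ζ (F g).2.1 * dR (cv g (F g).2.1) N +
        ζ (F g).2.2 * dR (cv g (F g).2.2) N := by
  obtain ⟨h1, h2, h3, n1, n2, n3, -⟩ := face_facts g hg
  have hsub : ({(F g).1, (F g).2.1, (F g).2.2} : Finset ℕ) ⊆ Finset.range 12 := by
    intro x hx
    simp only [Finset.mem_insert, Finset.mem_singleton] at hx
    rw [Finset.mem_range]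
    rcases hx with rfl | rfl | rfl <;> assumption
  rw [← Finset.sum_subset hsub]
  · rw [Finset.sum_insert, Finset.sum_insert, Finset.sum_singleton]
    · ring
    · simpa using n3.symm
    · simp only [Finset.mem_insert, Finset.mem_singleton, not_or]
      exact ⟨n1.symm, n2.symm⟩
  · intro i _ hi
    simp only [Finset.mem_insert, Finset.mem_singleton, not_or] at hi
    rw [cv_other hi.1 hi.2.1 hi.2.2, dR_zero_left, mul_zero]

lemma sum_W (lam : List (ℕ × ℕ)) (ζ : ℕ → ℝ) (N : Fin 3 → ℝ) :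
    (lam.map (fun p => (p.2 : ℝ) * ∑ i ∈ Finset.range 12, ζ i * dR (cv p.1 i) N)).sum =
      ∑ i ∈ Finset.range 12, ζ i * dR (W lam i) N := by
  induction lam with
  | nil => simp [W, dR_zero_left]
  | cons p l ih =>
    rw [List.map_cons, List.sum_cons, ih, Finset.mul_sum, ← Finset.sum_add_distrib]
    apply Finset.sum_congr rfl
    intro i _
    have : W (p :: l) i = Z3.add (Z3.smul p.2 (cv p.1 i)) (W l i) := rfl
    rw [this, dR_add_left, dR_smul_left]
    push_cast; ring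

lemma face_adj : ∀ f < 20, adjB (F f).1 (F f).2.1 = true ∧ adjB (F f).2.1 (F f).2.2 = true ∧
    adjB (F f).2.2 (F f).1 = true := by
  decide +kernel

/-- The cross product of the first two rows of a matrix. -/
def rowCross (R : Matrix (Fin 3) (Fin 3) ℝ) : Fin 3 → ℝ :=
  ![R 0 1 * R 1 2 - R 0 2 * R 1 1, R 0 2 * R 1 0 - R 0 0 * R 1 2, R 0 0 * R 1 1 - R 0 1 * R 1 0]

lemma hA_rot (R : Matrix (Fin 3) (Fin 3) ℝ) (c : ℝ) (p q : Z3) :
    hA (R.mulVec (c • toR p)) (R.mulVec (c • toR q)) = c ^ 2 * dR (Z3.cross p q) (rowCross R) := by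
  simp only [hA, Matrix.mulVec, dotProduct, Fin.sum_univ_three, Pi.smul_apply, smul_eq_mul, toR_0,
    toR_1, toR_2, dR, Z3.cross, rowCross, Matrix.cons_val_zero, Matrix.cons_val_one,
    Matrix.cons_val]
  push_cast
  ring

lemma det3_rot (R : Matrix (Fin 3) (Fin 3) ℝ) (hR : R.det = 1) (c : ℝ) (p q r : Z3) :
    det3 (R.mulVec (c • toR p)) (R.mulVec (c • toR q)) (R.mulVec (c • toR r)) =
      c ^ 3 * ((Z3.dot (Z3.cross q r) p : ℤ) : ℝ) := by
  rw [Matrix.det_fin_three] at hR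
  have : det3 (R.mulVec (c • toR p)) (R.mulVec (c • toR q)) (R.mulVec (c • toR r)) =
      (R 0 0 * R 1 1 * R 2 2 - R 0 0 * R 1 2 * R 2 1 - R 0 1 * R 1 0 * R 2 2 +
        R 0 1 * R 1 2 * R 2 0 + R 0 2 * R 1 0 * R 2 1 - R 0 2 * R 1 1 * R 2 0) *
      (c ^ 3 * ((Z3.dot (Z3.cross q r) p : ℤ) : ℝ)) := by
    simp only [det3, hA, Matrix.mulVec, dotProduct, Fin.sum_univ_three, Pi.smul_apply, smul_eq_mul,
      toR_0, toR_1, toR_2, Z3.dot, Z3.cross]
    push_cast
    ring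
  rw [this, hR, one_mul]

/-- No rotation of the example is sinkable. -/
theorem no_sink (R : Matrix (Fin 3) (Fin 3) ℝ) (hR : R.det = 1) :
    ¬ Sinkable G12 (fun i => R.mulVec (v12 i)) := by
  rintro ⟨γ, hm, hl, h0, hs⟩
  obtain ⟨f, hf, hfN, lam, hlam, hp, hW⟩ := core (rowCross R)
  -- scaling factors at time 1
  have hsc : ∀ i : Fin 12, ∃ c : ℝ, 0 < c ∧ γ 1 i 0 = c * γ 0 i 0 ∧ γ 1 i 1 = c * γ 0 i 1 := by
    intro i
    obtain ⟨-, c, hc, h1, h2⟩ := hl.stays 1 (by simp) i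
    exact ⟨c, hc, h1, h2⟩
  choose s hspos hs0 hs1 using hsc
  let u : ℕ → Fin 12 := fun n => Fin.ofNat 12 n
  have hu : ∀ n, n < 12 → (u n).val = n := fun n hn => by
    simp only [u, Fin.ofNat, Fin.val_mk]; exact Nat.mod_eq_of_lt hn
  let ζ : ℕ → ℝ := fun n => γ 1 (u n) 2 / s (u n)
  have hζ : ∀ n, ζ n < 0 := fun n => div_neg_of_neg_of_pos (hs _) (hspos _)
  have hγ0 : ∀ i, γ 0 i = R.mulVec (c12 • toR (P i.val)) := fun i => by rw [h0]; rfl
  -- each face in the certificate is positive at time 1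
  have hpos : ∀ g, g < 20 → g ≠ f →
      0 < ∑ i ∈ Finset.range 12, ζ i * dR (cv g i) (rowCross R) := by
    intro g hg hgf
    obtain ⟨h1, h2, h3, n1, n2, n3, hD⟩ := face_facts g hg
    obtain ⟨a1, a2, a3⟩ := face_adj g hg
    have ad1 : G12.Adj (u (F g).1) (u (F g).2.1) := by
      change adjB _ _ = true; rw [hu _ h1, hu _ h2]; exact a1
    have ad2 : G12.Adj (u (F g).2.1) (u (F g).2.2) := by
      change adjB _ _ = true; rw [hu _ h2, hu _ h3]; exact a2
    have ad3 : G12.Adj (u (F g).2.2) (u (F g).1) := by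
      change adjB _ _ = true; rw [hu _ h3, hu _ h1]; exact a3
    have hc := c12_pos
    have e1 : hA (γ 0 (u (F g).2.1)) (γ 0 (u (F g).2.2)) =
        c12 ^ 2 * dR (cv g (F g).1) (rowCross R) := by
      rw [hγ0, hγ0, hu _ h2, hu _ h3, hA_rot, cv1]
    have e2 : hA (γ 0 (u (F g).2.2)) (γ 0 (u (F g).1)) =
        c12 ^ 2 * dR (cv g (F g).2.1) (rowCross R) := by
      rw [hγ0, hγ0, hu _ h3, hu _ h1, hA_rot, cv2 hg]
    have e3 : hA (γ 0 (u (F g).1)) (γ 0 (u (F g).2.1)) =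
        c12 ^ 2 * dR (cv g (F g).2.2) (rowCross R) := by
      rw [hγ0, hγ0, hu _ h1, hu _ h2, hA_rot, cv3 hg]
    have hdet : 0 < det3 (γ 0 (u (F g).1)) (γ 0 (u (F g).2.1)) (γ 0 (u (F g).2.2)) := by
      rw [hγ0, hγ0, hγ0, det3_rot R hR, hu _ h1, hu _ h2, hu _ h3]
      have : (0:ℝ) < ((Z3.dot (Z3.cross (P (F g).2.1) (P (F g).2.2)) (P (F g).1) : ℤ) : ℝ) := by
        exact_mod_cast hD
      positivity
    have hN : ¬ (0 < hA (γ 0 (u (F g).2.1)) (γ 0 (u (F g).2.2)) ∧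
        0 < hA (γ 0 (u (F g).2.2)) (γ 0 (u (F g).1)) ∧
        0 < hA (γ 0 (u (F g).1)) (γ 0 (u (F g).2.1))) := by
      rintro ⟨q1, q2, q3⟩
      rw [e1] at q1; rw [e2] at q2; rw [e3] at q3
      have hc2 : 0 < c12 ^ 2 := by positivity
      exact disj hf hg (Ne.symm hgf) hfN
        ⟨(pos_iff_pos_of_mul_pos q1).mp hc2, (pos_iff_pos_of_mul_pos q2).mp hc2,
          (pos_iff_pos_of_mul_pos q3).mp hc2⟩
    have hfl := flip hm hl hs ad1 ad2 ad3 hdet hN
    rw [sum_face hg]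
    have hA1 : ∀ i j, hA (γ 1 i) (γ 1 j) = s i * s j * hA (γ 0 i) (γ 0 j) := by
      intro i j; unfold hA; rw [hs0, hs0, hs1, hs1]; ring
    unfold det3 at hfl
    rw [hA1, hA1, hA1, e1, e2, e3] at hfl
    have p1 := hspos (u (F g).1); have p2 := hspos (u (F g).2.1); have p3 := hspos (u (F g).2.2)
    have key : γ 1 (u (F g).1) 2 * (s (u (F g).2.1) * s (u (F g).2.2) *
          (c12 ^ 2 * dR (cv g (F g).1) (rowCross R))) +
        γ 1 (u (F g).2.1) 2 * (s (u (F g).2.2) * s (u (F g).1) *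
          (c12 ^ 2 * dR (cv g (F g).2.1) (rowCross R))) +
        γ 1 (u (F g).2.2) 2 * (s (u (F g).1) * s (u (F g).2.1) *
          (c12 ^ 2 * dR (cv g (F g).2.2) (rowCross R))) =
        (c12 ^ 2 * s (u (F g).1) * s (u (F g).2.1) * s (u (F g).2.2)) *
        (ζ (F g).1 * dR (cv g (F g).1) (rowCross R) +
          ζ (F g).2.1 * dR (cv g (F g).2.1) (rowCross R) +
          ζ (F g).2.2 * dR (cv g (F g).2.2) (rowCross R)) := by
      simp only [ζ]
      field_simp
    rw [key] at hfl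
    exact (pos_iff_pos_of_mul_pos hfl).mp (by positivity)
  have hsum : 0 < (lam.map (fun p => (p.2 : ℝ) *
      ∑ i ∈ Finset.range 12, ζ i * dR (cv p.1 i) (rowCross R))).sum := by
    apply List.sum_pos
    · intro x hx
      rw [List.mem_map] at hx
      obtain ⟨p, hpl, rfl⟩ := hx
      obtain ⟨q1, q2, q3⟩ := hp p hpl
      have := hpos p.1 q2 q1
      have q3' : (0:ℝ) < (p.2 : ℝ) := by exact_mod_cast q3
      positivity
    · simpa using hlam
  rw [sum_W] at hsum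
  have : ∑ i ∈ Finset.range 12, ζ i * dR (W lam i) (rowCross R) ≤ 0 := by
    apply Finset.sum_nonpos
    intro i hi
    exact mul_nonpos_of_nonpos_of_nonneg (hζ i).le (hW i (Finset.mem_range.mp hi))
  linarith

end Helper479.Sink
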