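import Pool.Agent.Helper479.Sink.NoSink2

/-! The example is a shortest-path triangulation (MP_bf58c1_co). -/

namespace Helper479.Sink

open Set

lemma P_norm : ∀ i < 12, Z3.dot (P i) (P i) = 1010 := by decide +kernel

lemma P_norm_real {i : ℕ} (hi : i < 12) :
    (toR (P i) 0) ^ 2 + (toR (P i) 1) ^ 2 + (toR (P i) 2) ^ 2 = 1010 := by
  have := P_norm i hi
  unfold Z3.dot at this
  have h : (((P i).x * (P i).x + (P i).y * (P i).y + (P i).z * (P i).z : ℤ) : ℝ) = 1010 := by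
    rw [this]; norm_num
  push_cast at h
  simp only [toR_0, toR_1, toR_2]
  nlinarith

lemma v12_mem (i : Fin 12) : v12 i ∈ S2 := by
  have h := P_norm_real i.isLt
  have hc := c12_sq
  show (v12 i 0) ^ 2 + (v12 i 1) ^ 2 + (v12 i 2) ^ 2 = 1
  simp only [v12, Pi.smul_apply, smul_eq_mul]
  calc _ = c12 ^ 2 * ((toR (P i) 0) ^ 2 + (toR (P i) 1) ^ 2 + (toR (P i) 2) ^ 2) := by ring
    _ = 1 := by rw [h, hc]

lemma scale_unique {m : ℕ} (hm : m < 12) {t : ℝ} (ht : 0 ≤ t) (hx : t • toR (P m) ∈ S2) :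
    t = c12 := by
  have h := P_norm_real hm
  have hc := c12_sq
  have hx' : (t * toR (P m) 0) ^ 2 + (t * toR (P m) 1) ^ 2 + (t * toR (P m) 2) ^ 2 = 1 := hx
  have h2 : t ^ 2 * 1010 = 1 := by rw [← h]; nlinarith
  have h3 : t ^ 2 = c12 ^ 2 := by linarith
  exact (pow_left_inj₀ ht c12_pos.le two_ne_zero).mp h3

lemma toR_inj {a b : Z3} (h : toR a = toR b) : a = b := by
  have h0 := congrFun h 0; have h1 := congrFun h 1; have h2 := congrFun h 2
  simp only [toR_0, toR_1, toR_2] at h0 h1 h2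
  cases a; cases b
  simp only [Z3.mk.injEq]
  exact ⟨by exact_mod_cast h0, by exact_mod_cast h1, by exact_mod_cast h2⟩

lemma v12_inj : Function.Injective v12 := by
  intro i j h
  have hc := c12_pos.ne'
  have h1 : toR (P i.val) = toR (P j.val) := by
    have := congrArg (fun x => c12⁻¹ • x) h
    simpa [v12, smul_smul, inv_mul_cancel₀ hc] using this
  have h2 := toR_inj h1
  have : ∀ i j : Fin 12, P i.val = P j.val → i = j := by decide +kernel
  exact this i j h2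

lemma v12_antip (i j : Fin 12) : v12 i ≠ - v12 j := by
  intro h
  have hc := c12_pos.ne'
  have h1 : toR (P i.val) = toR (Z3.smul (-1) (P j.val)) := by
    have := congrArg (fun x => c12⁻¹ • x) h
    rw [toR_smul]
    simpa [v12, smul_smul, inv_mul_cancel₀ hc] using this
  have h2 := toR_inj h1
  have : ∀ i j : Fin 12, ¬ (P i.val = Z3.smul (-1) (P j.val)) := by decide +kernel
  exact this i j h2

/-- cone over an edge -/
def ConeE (e : ℕ × ℕ) (x : Fin 3 → ℝ) : Prop :=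
  ∃ s t : ℝ, 0 ≤ s ∧ 0 ≤ t ∧ x = s • toR (P e.1) + t • toR (P e.2)

lemma dR_comb2 (w : Z3) (α β : ℝ) (a b : Fin 3 → ℝ) :
    dR w (α • a + β • b) = α * dR w a + β * dR w b := by
  simp only [dR, Pi.add_apply, Pi.smul_apply, smul_eq_mul]; ring

lemma ConeE.swap {a b : ℕ} {x : Fin 3 → ℝ} (h : ConeE (a, b) x) : ConeE (b, a) x := by
  obtain ⟨s, t, hs, ht, rfl⟩ := h
  exact ⟨t, s, ht, hs, add_comm _ _⟩

/-- sharing case: common vertex `m`, other endpoints `a`, `b` -/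
lemma sep_share {s : Z3} {m a b : ℕ} (h0 : Z3.dot s (P m) = 0) (h1 : 0 < Z3.dot s (P a))
    (h2 : Z3.dot s (P b) ≤ 0) {x : Fin 3 → ℝ} (hx : ConeE (m, a) x) (hy : ConeE (m, b) x) :
    ∃ t : ℝ, 0 ≤ t ∧ x = t • toR (P m) := by
  obtain ⟨p, q, hp, hq, rfl⟩ := hx
  obtain ⟨p', q', hp', hq', he⟩ := hy
  have h0' : ((Z3.dot s (P m) : ℤ) : ℝ) = 0 := by exact_mod_cast h0
  have h1' : (0:ℝ) < ((Z3.dot s (P a) : ℤ) : ℝ) := by exact_mod_cast h1
  have h2' : ((Z3.dot s (P b) : ℤ) : ℝ) ≤ 0 := by exact_mod_cast h2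
  have := congrArg (dR s) he
  rw [dR_comb2, dR_comb2, dR_toR, dR_toR, dR_toR] at this
  simp only [h0', mul_zero, zero_add] at this
  have hq0 : q = 0 := by
    have h3 : q' * ((Z3.dot s (P b) : ℤ) : ℝ) ≤ 0 := mul_nonpos_of_nonneg_of_nonpos hq' h2'
    by_contra hc
    have : 0 < q := lt_of_le_of_ne hq (Ne.symm hc)
    have := mul_pos this h1'
    linarith
  exact ⟨p, hp, by simp [hq0]⟩

lemma sep_disj {s : Z3} {a b c d : ℕ} (h1 : 0 < Z3.dot s (P a)) (h2 : 0 < Z3.dot s (P b))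
    (h3 : Z3.dot s (P c) ≤ 0) (h4 : Z3.dot s (P d) ≤ 0) {x : Fin 3 → ℝ}
    (hx : ConeE (a, b) x) (hy : ConeE (c, d) x) : x = 0 := by
  obtain ⟨p, q, hp, hq, rfl⟩ := hx
  obtain ⟨p', q', hp', hq', he⟩ := hy
  have h1' : (0:ℝ) < ((Z3.dot s (P a) : ℤ) : ℝ) := by exact_mod_cast h1
  have h2' : (0:ℝ) < ((Z3.dot s (P b) : ℤ) : ℝ) := by exact_mod_cast h2
  have h3' : ((Z3.dot s (P c) : ℤ) : ℝ) ≤ 0 := by exact_mod_cast h3
  have h4' : ((Z3.dot s (P d) : ℤ) : ℝ) ≤ 0 := by exact_mod_cast h4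
  have := congrArg (dR s) he
  rw [dR_comb2, dR_comb2, dR_toR, dR_toR, dR_toR, dR_toR] at this
  have g1 := mul_nonpos_of_nonneg_of_nonpos hp' h3'
  have g2 := mul_nonpos_of_nonneg_of_nonpos hq' h4'
  have g3 := mul_nonneg hp h1'.le
  have g4 := mul_nonneg hq h2'.le
  have z1 : p * ((Z3.dot s (P a) : ℤ) : ℝ) = 0 := by linarith
  have z2 : q * ((Z3.dot s (P b) : ℤ) : ℝ) = 0 := by linarith
  have p0 : p = 0 := by
    rcases mul_eq_zero.mp z1 with h | h
    · exact h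
    · exact absurd h h1'.ne'
  have q0 : q = 0 := by
    rcases mul_eq_zero.mp z2 with h | h
    · exact h
    · exact absurd h h2'.ne'
  simp [p0, q0]

lemma zero_not_S2 : (0 : Fin 3 → ℝ) ∉ S2 := by simp [S2]

lemma sep_sound {s : Z3} {e e' : ℕ × ℕ} (h : sepOK s e e' = true) {x : Fin 3 → ℝ} (hx : x ∈ S2)
    (h1 : ConeE e x) (h2 : ConeE e' x) : ∃ m, (m = e.1 ∨ m = e.2) ∧ (m = e'.1 ∨ m = e'.2) ∧
      ∃ t : ℝ, 0 ≤ t ∧ x = t • toR (P m) := by
  obtain ⟨a, b⟩ := e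
  obtain ⟨c, d⟩ := e'
  simp only [sepOK] at h
  split_ifs at h with g1 g2 g3 g4
  · subst g1
    simp only [Bool.and_eq_true, decide_eq_true_eq] at h
    exact ⟨a, Or.inl rfl, Or.inl rfl, sep_share h.1.1.2 h.1.2 h.2 h1 h2⟩
  · subst g2
    simp only [Bool.and_eq_true, decide_eq_true_eq] at h
    exact ⟨a, Or.inl rfl, Or.inr rfl, sep_share h.1.1.2 h.1.2 h.2 h1 h2.swap⟩
  · subst g3
    simp only [Bool.and_eq_true, decide_eq_true_eq] at h
    exact ⟨b, Or.inr rfl, Or.inl rfl, sep_share h.1.1.2 h.1.2 h.2 h1.swap h2⟩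
  · subst g4
    simp only [Bool.and_eq_true, decide_eq_true_eq] at h
    exact ⟨b, Or.inr rfl, Or.inr rfl, sep_share h.1.1.2 h.1.2 h.2 h1.swap h2.swap⟩
  · simp only [Bool.and_eq_true, decide_eq_true_eq] at h
    have := sep_disj h.1.1.1 h.1.1.2 h.1.2 h.2 h1 h2
    rw [this] at hx
    exact absurd hx zero_not_S2

lemma edges_sep {e e' : ℕ × ℕ} (he : e ∈ El) (he' : e' ∈ El) (hne : e ≠ e') {x : Fin 3 → ℝ}
    (hx : x ∈ S2) (h1 : ConeE e x) (h2 : ConeE e' x) :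
    ∃ m, (m = e.1 ∨ m = e.2) ∧ (m = e'.1 ∨ m = e'.2) ∧ ∃ t : ℝ, 0 ≤ t ∧ x = t • toR (P m) := by
  have hlen : El.length = 30 := by decide
  obtain ⟨a, ha, rfl⟩ := List.getElem_of_mem he
  obtain ⟨b, hb, rfl⟩ := List.getElem_of_mem he'
  have hab : a ≠ b := by rintro rfl; exact hne rfl
  have h := chkEE_true
  simp only [chkEE, List.all_eq_true, List.mem_range] at h
  have key : ∀ a b : ℕ, (ha : a < El.length) → (hb : b < El.length) → a < b →
      ∃ s, sepOK s El[a] El[b] = true := by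
    intro a b ha hb hab
    obtain ⟨k, rfl⟩ := Nat.exists_eq_add_of_lt hab
    have h1 := h a (by omega) k (by omega)
    have e1 : El.getD a (0,0) = El[a] := by rw [List.getD_eq_getElem]
    have e2 : El.getD (a + 1 + k) (0,0) = El[a + k + 1] := by
      rw [List.getD_eq_getElem _ _ (by omega)]
      congr 1
      ring
    rw [e1, e2] at h1
    exact ⟨_, h1⟩
  rcases Nat.lt_or_gt_of_ne hab with h3 | h3
  · obtain ⟨s, hs⟩ := key a b ha hb h3
    exact sep_sound hs hx h1 h2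
  · obtain ⟨s, hs⟩ := key b a hb ha h3
    obtain ⟨m, g1, g2, g3⟩ := sep_sound hs hx h2 h1
    exact ⟨m, g2, g1, g3⟩

lemma arc_coneE {i j : Fin 12} {x : Fin 3 → ℝ} (h : x ∈ arc (v12 i) (v12 j)) :
    ConeE (i.val, j.val) x := by
  obtain ⟨-, a, b, ha, hb, rfl⟩ := h
  have := c12_pos
  refine ⟨a * c12, b * c12, by positivity, by positivity, ?_⟩
  simp only [v12, smul_smul]

lemma coneE_arc {i j : Fin 12} {x : Fin 3 → ℝ} (hx : x ∈ S2) (h : ConeE (i.val, j.val) x) :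
    x ∈ arc (v12 i) (v12 j) := by
  obtain ⟨a, b, ha, hb, rfl⟩ := h
  have hc := c12_pos
  refine ⟨hx, a / c12, b / c12, by positivity, by positivity, ?_⟩
  simp only [v12, smul_smul]
  congr 2 <;> field_simp

lemma adj_edge {i j : Fin 12} (h : G12.Adj i j) : (i.val, j.val) ∈ El ∨ (j.val, i.val) ∈ El := by
  change adjB i.val j.val = true at h
  simp only [adjB, List.any_eq_true, Bool.or_eq_true, Bool.and_eq_true, decide_eq_true_eq] at h
  obtain ⟨⟨a, b⟩, he, ⟨h1, h2⟩ | ⟨h1, h2⟩⟩ := h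
  · left; simp only at h1 h2; rw [← h1, ← h2]; exact he
  · right; simp only at h1 h2; rw [← h1, ← h2]; exact he

lemma edges_meet12 (i j k l : Fin 12) (hij : G12.Adj i j) (hkl : G12.Adj k l)
    (hne : s(i, j) ≠ s(k, l)) (x : Fin 3 → ℝ) (h1 : x ∈ arc (v12 i) (v12 j))
    (h2 : x ∈ arc (v12 k) (v12 l)) : ∃ m, m ∈ s(i, j) ∧ m ∈ s(k, l) ∧ x = v12 m := by
  have hx : x ∈ S2 := h1.1
  have c1 := arc_coneE h1
  have c2 := arc_coneE h2
  -- reduce to edges in the list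
  obtain ⟨e, he, he1, ce⟩ : ∃ e ∈ El, (∀ m : ℕ, (m = e.1 ∨ m = e.2) → (m = i.val ∨ m = j.val)) ∧
      ConeE e x ∧ (e = (i.val, j.val) ∨ e = (j.val, i.val)) := by
    rcases adj_edge hij with h | h
    · exact ⟨_, h, fun m hm => hm, c1, Or.inl rfl⟩
    · exact ⟨_, h, fun m hm => hm.symm, c1.swap, Or.inr rfl⟩
  obtain ⟨e', he', he1', ce'⟩ : ∃ e ∈ El, (∀ m : ℕ, (m = e.1 ∨ m = e.2) → (m = k.val ∨ m = l.val)) ∧
      ConeE e x ∧ (e = (k.val, l.val) ∨ e = (l.val, k.val)) := by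
    rcases adj_edge hkl with h | h
    · exact ⟨_, h, fun m hm => hm, c2, Or.inl rfl⟩
    · exact ⟨_, h, fun m hm => hm.symm, c2.swap, Or.inr rfl⟩
  have hee : e ≠ e' := by
    rintro rfl
    apply hne
    rcases ce.2 with h | h <;> rcases ce'.2 with h' | h'
    · rw [h] at h'
      simp only [Prod.mk.injEq] at h'
      rw [Fin.ext h'.1, Fin.ext h'.2]
    · rw [h] at h'
      simp only [Prod.mk.injEq] at h'
      rw [Fin.ext h'.1, Fin.ext h'.2, Sym2.eq_swap]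
    · rw [h] at h'
      simp only [Prod.mk.injEq] at h'
      rw [Fin.ext h'.1, Fin.ext h'.2, Sym2.eq_swap]
    · rw [h] at h'
      simp only [Prod.mk.injEq] at h'
      rw [Fin.ext h'.1, Fin.ext h'.2]
  obtain ⟨m, hm1, hm2, t, ht, hxt⟩ := edges_sep he he' hee hx ce.1 ce'.1
  have hm1' := he1 m hm1
  have hm2' := he1' m hm2
  have hm : m < 12 := by
    rcases hm1' with rfl | rfl
    · exact i.isLt
    · exact j.isLt
  refine ⟨⟨m, hm⟩, ?_, ?_, ?_⟩
  · rw [Sym2.mem_iff]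
    rcases hm1' with h | h
    · left; exact Fin.ext h
    · right; exact Fin.ext h
  · rw [Sym2.mem_iff]
    rcases hm2' with h | h
    · left; exact Fin.ext h
    · right; exact Fin.ext h
  · rw [hxt] at hx
    rw [hxt, scale_unique hm ht hx]; rfl

lemma vertex_edge12 (i j m : Fin 12) (hij : G12.Adj i j) (h : v12 m ∈ arc (v12 i) (v12 j)) :
    m = i ∨ m = j := by
  by_contra hc
  push Not at hc
  have hex : ∀ m : Fin 12, ∃ l : Fin 12, adjB m.val l.val = true := by decide +kernel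
  obtain ⟨l, hl⟩ := hex m
  have hne : s(i, j) ≠ s(m, l) := by
    intro h
    have : m ∈ s(i, j) := by rw [h]; simp
    rw [Sym2.mem_iff] at this
    rcases this with h | h
    · exact hc.1 h
    · exact hc.2 h
  obtain ⟨m', h1, -, h3⟩ := edges_meet12 i j m l hij hl hne (v12 m) h
    ⟨v12_mem m, 1, 0, zero_le_one, le_refl _, by simp⟩
  have := v12_inj h3
  subst this
  rw [Sym2.mem_iff] at h1
  rcases h1 with h | h
  · exact hc.1 h
  · exact hc.2 h

lemma card12 : Nat.card G12.edgeSet = 3 * 12 - 6 := by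
  rw [Nat.card_eq_fintype_card, ← SimpleGraph.edgeFinset_card]
  decide +kernel

end Helper479.Sink
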